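import Pool.Agent.SzBF.Defs

/-!
Families of binary forms: definitions.

For a binary form `F = sum_(i ≤ N) b_i X^i Z^(N-i)` with integral coefficients and `N` different
zeros, `m | N`, let `X_F` be the curve `y^m = F(x,1)`. If `X_F` (of genus at least two) has good
reduction over a finite extension of `Q_p`, `p` not dividing `m`, then the quotient of the smooth
model by the group of `m`-th roots of unity is a smooth model of the line, the branch points stay
different (the cover is tame), so `F` is equivalent to a form with integral coefficients and unit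
discriminant over an extension, that is, `PotGood p N b` holds. Therefore all primes in `badPart`
are places of bad reduction of `X_F` (over the rational numbers and over all their extensions).
-/

open Polynomial
open scoped Classical

namespace SzFM

/-- The coefficients of `F(x X + y Z, z X + w Z)` for `F = sum_(i ≤ N) b_i X^i Z^(N-i)`. -/
noncomputable def act {R : Type*} [CommRing R] (N : ℕ) (b : Fin (N + 1) → R) (x y z w : R)
    (k : Fin (N + 1)) : R :=
  (∑ i : Fin (N + 1), C (b i) * (C x * X + C y) ^ (i : ℕ) * (C z * X + C w) ^ (N - (i : ℕ))).coeff k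

/-- `I` is an invariant, homogeneous of degree `e` in the coefficients, of the binary forms of
degree `N` under `SL_2`. -/
def IsInvariant (N e : ℕ) (I : MvPolynomial (Fin (N + 1)) ℤ) : Prop :=
  I.IsHomogeneous e ∧ ∀ (R : Type) [CommRing R] (b : Fin (N + 1) → R) (x y z w : R),
    x * w - y * z = 1 → MvPolynomial.aeval (act N b x y z w) I = MvPolynomial.aeval b I

/-- Over the normed field `L` the binary form with the coefficients `b` is equivalent to a form
with integral coefficients and unit discriminant
(`disc (c F(xX+yZ,zX+wZ)) = c^(2N-2) (xw-yz)^(N(N-1)) disc F`). -/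
def UnitModel (L : Type*) [NormedField L] (N : ℕ) (b : Fin (N + 1) → ℤ) : Prop :=
  ∃ c x y z w : L, (∀ k, ‖c * act N (fun i => (b i : L)) x y z w k‖ ≤ 1) ∧
    ‖c ^ (2 * N - 2) * (x * w - y * z) ^ (N * (N - 1)) * ((SzBF.form N b).discr : L)‖ = 1

/-- Potentially good reduction at `p`. -/
def PotGood (p : ℕ) [Fact p.Prime] (N : ℕ) (b : Fin (N + 1) → ℤ) : Prop :=
  UnitModel ℂ_[p] N b

/-- The product of the primes `p` not dividing `m` such that the binary form with the coefficients
`b` is not equivalent to a form with integral coefficients and unit discriminant over `ℂ_p`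
(they divide the discriminant). -/
noncomputable def badPart (m N : ℕ) (b : Fin (N + 1) → ℤ) : ℕ :=
  ∏ p ∈ (SzBF.form N b).discr.natAbs.primeFactors with
    (¬ p ∣ m ∧ ∃ hp : p.Prime, ¬ @PotGood p ⟨hp⟩ N b), p

/-- The binary form of the family at `t`. -/
noncomputable def val {r N : ℕ} (a : Fin (N + 1) → MvPolynomial (Fin r) ℤ) (t : Fin r → ℤ)
    (i : Fin (N + 1)) : ℤ := MvPolynomial.eval t (a i)

/-- For some invariant `I`, of degree `e`, of the binary forms of degree `N` the absolute invariant
`I^(2N-2) / disc^e` of the family `a` is not a polynomial with rational coefficients in the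
parameters. (For a family over projective space, given by forms `a_i` of the same degree, this
says that the absolute invariant is not constant.) -/
def Moves {r N : ℕ} (a : Fin (N + 1) → MvPolynomial (Fin r) ℤ) : Prop :=
  ∃ (e : ℕ) (I : MvPolynomial (Fin (N + 1)) ℤ), IsInvariant N e I ∧ ∀ c : ℤ, c ≠ 0 →
    ¬ (SzBF.form N a).discr ^ e ∣ MvPolynomial.C c * (MvPolynomial.aeval a I) ^ (2 * N - 2)

/-- The integral points of the cube. -/
noncomputable def cube (r T : ℕ) : Finset (Fin r → ℤ) :=
  Fintype.piFinset fun _ => Finset.Icc (-(T : ℤ)) T

end SzFM
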