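import Pool.Agent.SzFM.Defs

/-!
Zeros and growth of polynomials on cubes.
-/

open scoped Classical

namespace SzFM

open MvPolynomial

theorem cube_zero (n : ℕ) (W : MvPolynomial (Fin n) ℤ) (hW : W ≠ 0) : ∃ A : ℝ, 0 ≤ A ∧
    ∀ T : ℕ, 1 ≤ T → (((cube n T).filter (fun t => eval t W = 0)).card : ℝ) ≤
      A * (T : ℝ) ^ ((n : ℝ) - 1) := by
  refine ⟨W.totalDegree * 3 ^ n, by positivity, fun T hT => ?_⟩
  have hT1 : (1 : ℝ) ≤ T := by exact_mod_cast hT
  have hT0 : (0 : ℝ) < T := by linarith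
  set S : Finset ℤ := Finset.Icc (-(T : ℤ)) T with hS
  have hcard : S.card = 2 * T + 1 := by
    rw [hS, Int.card_Icc]
    omega
  have h := schwartz_zippel_totalDegree hW S
  have hset : (cube n T).filter (fun t => eval t W = 0) =
      Finset.filter (fun f => eval f W = 0) (Fintype.piFinset fun _ => S) := by
    unfold cube
    congr
  have h' : ((((cube n T).filter (fun t => eval t W = 0)).card : ℕ) : ℝ) / ((S.card : ℝ) ^ n) ≤
      (W.totalDegree : ℝ) / (S.card : ℝ) := by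
    rw [hset]
    have h2 := (NNRat.cast_le (K := ℝ)).mpr h
    push_cast at h2
    exact h2
  rw [hcard] at h'
  have hc0 : (0 : ℝ) < ((2 * T + 1 : ℕ) : ℝ) := by positivity
  rw [div_le_iff₀ (by positivity)] at h'
  refine h'.trans ?_
  have h1 : ((2 * T + 1 : ℕ) : ℝ) ≤ 3 * T := by
    push_cast
    linarith
  have h2 : (T : ℝ) ≤ ((2 * T + 1 : ℕ) : ℝ) := by
    push_cast
    linarith
  calc (W.totalDegree : ℝ) / ((2 * T + 1 : ℕ) : ℝ) * (((2 * T + 1 : ℕ) : ℝ)) ^ n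
      ≤ (W.totalDegree : ℝ) / T * (3 * T) ^ n := by gcongr
    _ = W.totalDegree * 3 ^ n * (T : ℝ) ^ ((n : ℝ) - 1) := by
        rw [Real.rpow_sub hT0, Real.rpow_natCast, Real.rpow_one, mul_pow]
        ring

theorem cube_growth (n w : ℕ) (W : MvPolynomial (Fin n) ℤ) (hw : W.totalDegree ≤ w) :
    ∃ K : ℕ, ∀ T : ℕ, 1 ≤ T → ∀ t ∈ cube n T, |eval t W| ≤ (K : ℤ) * (T : ℤ) ^ w := by
  refine ⟨∑ d ∈ W.support, (W.coeff d).natAbs, fun T hT t ht => ?_⟩
  have hT1 : (1 : ℤ) ≤ T := by exact_mod_cast hT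
  have ht' : ∀ i, |t i| ≤ (T : ℤ) := by
    intro i
    have := (Fintype.mem_piFinset.mp ht) i
    rw [Finset.mem_Icc] at this
    exact abs_le.mpr this
  rw [MvPolynomial.eval_eq']
  refine (Finset.abs_sum_le_sum_abs _ _).trans ?_
  rw [Nat.cast_sum, Finset.sum_mul]
  refine Finset.sum_le_sum fun d hd => ?_
  rw [abs_mul, Int.natCast_natAbs]
  refine mul_le_mul_of_nonneg_left ?_ (abs_nonneg _)
  rw [Finset.abs_prod]
  calc ∏ i, |t i ^ d i| ≤ ∏ i, (T : ℤ) ^ d i := by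
        refine Finset.prod_le_prod (fun i _ => abs_nonneg _) fun i _ => ?_
        rw [abs_pow]
        exact pow_le_pow_left₀ (abs_nonneg _) (ht' i) _
    _ = (T : ℤ) ^ (∑ i, d i) := by rw [Finset.prod_pow_eq_pow_sum]
    _ ≤ (T : ℤ) ^ w := by
        refine pow_le_pow_right₀ hT1 ?_
        have h1 := le_totalDegree hd
        rw [Finsupp.sum_fintype _ _ (fun _ => rfl)] at h1
        exact h1.trans hw

end SzFM
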