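import Pool.Agent.SzFM.Pt

/-!
Large prime powers, the prime divides `Q`.
-/

open Polynomial
open scoped Classical

namespace SzFM

theorem ev3_two_pow (n : ℕ) (hn : n ≠ 0) : 2 ^ n.primeFactors.card ≤ n := by
  calc 2 ^ n.primeFactors.card = ∏ p ∈ n.primeFactors, 2 := by simp
    _ ≤ ∏ p ∈ n.primeFactors, p :=
        Finset.prod_le_prod' (fun p hp => (Nat.prime_of_mem_primeFactors hp).two_le)
    _ ≤ n := Nat.le_of_dvd (Nat.pos_of_ne_zero hn) (Nat.prod_primeFactors_dvd n)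

theorem ev3_omega (ε B K : ℝ) (hε : 0 < ε) (hB : 0 ≤ B) (T : ℕ) (hT : 1 ≤ T) (Q : ℤ) (hQ : Q ≠ 0)
    (hQK : |(Q : ℝ)| ≤ K * (T : ℝ) ^ B) :
    (Q.natAbs.primeFactors.card : ℝ) ≤
      ((|Real.log K| + B / ε) / Real.log 2) * (T : ℝ) ^ ε := by
  have hT1 : (1 : ℝ) ≤ T := by exact_mod_cast hT
  have hT0 : (0 : ℝ) < T := by linarith
  have h1 : (1 : ℝ) ≤ |(Q : ℝ)| := by
    exact_mod_cast Int.one_le_abs hQ
  have hTB : 0 < (T : ℝ) ^ B := Real.rpow_pos_of_pos hT0 B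
  have hK : 0 < K := by
    by_contra hK
    push Not at hK
    have := mul_nonpos_of_nonpos_of_nonneg hK hTB.le
    linarith
  have h2 : (2 : ℝ) ^ Q.natAbs.primeFactors.card ≤ |(Q : ℝ)| := by
    have h3 := ev3_two_pow Q.natAbs (Int.natAbs_ne_zero.mpr hQ)
    have h4 : ((2 ^ Q.natAbs.primeFactors.card : ℕ) : ℝ) ≤ (Q.natAbs : ℝ) := by exact_mod_cast h3
    have h5 : (Q.natAbs : ℝ) = |(Q : ℝ)| := by
      rw [Nat.cast_natAbs, Int.cast_abs]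
    rw [h5] at h4
    push_cast at h4
    exact h4
  have h6 : (Q.natAbs.primeFactors.card : ℝ) * Real.log 2 ≤ Real.log K + B * Real.log T := by
    have h7 := Real.log_le_log (by positivity) (h2.trans hQK)
    rw [Real.log_pow, Real.log_mul hK.ne' hTB.ne', Real.log_rpow hT0] at h7
    exact h7
  have hl2 : 0 < Real.log 2 := Real.log_pos (by norm_num)
  have h8 : Real.log T ≤ (T : ℝ) ^ ε / ε := Real.log_le_rpow_div hT0.le hε
  have h9 : (1 : ℝ) ≤ (T : ℝ) ^ ε := Real.one_le_rpow hT1 hε.le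
  have h10 : Real.log K ≤ |Real.log K| * (T : ℝ) ^ ε := by
    calc Real.log K ≤ |Real.log K| := le_abs_self _
      _ = |Real.log K| * 1 := by ring
      _ ≤ |Real.log K| * (T : ℝ) ^ ε := mul_le_mul_of_nonneg_left h9 (abs_nonneg _)
  have h11 : B * Real.log T ≤ B * ((T : ℝ) ^ ε / ε) := mul_le_mul_of_nonneg_left h8 hB
  have h12 : (Q.natAbs.primeFactors.card : ℝ) * Real.log 2 ≤
      (|Real.log K| + B / ε) * (T : ℝ) ^ ε := by
    calc (Q.natAbs.primeFactors.card : ℝ) * Real.log 2 ≤ Real.log K + B * Real.log T := h6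
      _ ≤ |Real.log K| * (T : ℝ) ^ ε + B * ((T : ℝ) ^ ε / ε) := add_le_add h10 h11
      _ = (|Real.log K| + B / ε) * (T : ℝ) ^ ε := by ring
  rw [div_mul_eq_mul_div, le_div_iff₀ hl2]
  exact h12

theorem ev3_md (d : ℕ) (hd : 1 ≤ d) (Q : ℤ) (p v : ℕ) (hp : p.Prime) (hpQ : (p : ℤ) ∣ Q)
    (hv : 1 ≤ v) (θ : ℝ) (T : ℕ) (hT : 1 ≤ T) (h : (T : ℝ) ^ θ < (p : ℝ) ^ v) :
    (T : ℝ) ^ (θ / d) ≤ md d Q (p ^ v) := by
  have hT0 : (0 : ℝ) ≤ T := Nat.cast_nonneg T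
  have hd0 : (0 : ℝ) < d := by exact_mod_cast hd
  have hp1 : (1 : ℝ) ≤ p := by exact_mod_cast hp.one_lt.le
  have h1 : md d Q (p ^ v) = (p : ℝ) ^ ((v + d - 1) / d) := by
    unfold md ex
    rw [Nat.primeFactors_pow p (by omega), hp.primeFactors, Finset.prod_singleton, if_pos hpQ,
      hp.factorization_pow, Finsupp.single_eq_same]
  rw [h1]
  have h2 : v ≤ d * ((v + d - 1) / d) := by
    have h3 := Nat.div_add_mod (v + d - 1) d
    have h4 := Nat.mod_lt (v + d - 1) (show d > 0 by omega)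
    omega
  have h5 : (T : ℝ) ^ θ ≤ ((p : ℝ) ^ ((v + d - 1) / d)) ^ d := by
    rw [← pow_mul]
    calc (T : ℝ) ^ θ ≤ (p : ℝ) ^ v := h.le
      _ ≤ (p : ℝ) ^ ((v + d - 1) / d * d) := pow_le_pow_right₀ hp1 (by rw [mul_comm]; exact h2)
  have h6 : ((T : ℝ) ^ (θ / d)) ^ d = (T : ℝ) ^ θ := by
    rw [← Real.rpow_natCast, ← Real.rpow_mul hT0]
    congr 1
    field_simp
  rw [← h6] at h5
  exact le_of_pow_le_pow_left₀ (by omega) (by positivity) h5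

theorem ev3 (d : ℕ) (hd : 1 ≤ d) (θ B K : ℝ) (hθ : 0 < θ) (hθ1 : θ ≤ 1 / 2) (hB : 0 ≤ B) :
    ∃ A η : ℝ, 0 < η ∧ ∀ T : ℕ, 1 ≤ T → ∀ (P U V : ℤ[X]) (W Q : ℤ),
      P.IsPrimitive → P.natDegree ≤ d → U * P + V * derivative P = C W → W ∣ Q → Q ≠ 0 →
      |(Q : ℝ)| ≤ K * (T : ℝ) ^ B →
      (((Finset.Icc (-(T : ℤ)) T).filter (fun x => ∃ p v : ℕ, p.Prime ∧ (p : ℤ) ∣ Q ∧ 1 ≤ v ∧
        (p : ℤ) ^ v ∣ P.eval x ∧ (T : ℝ) ^ θ < (p : ℝ) ^ v)).card : ℝ) ≤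
        A * (T : ℝ) ^ (1 - η) := by
  have hd0 : (0 : ℝ) < d := by exact_mod_cast hd
  have hd1 : (1 : ℝ) ≤ d := by exact_mod_cast hd
  have hε : 0 < θ / (2 * d) := by positivity
  refine ⟨((|Real.log K| + B / (θ / (2 * d))) / Real.log 2) * (4 * d), θ / (2 * d), hε, ?_⟩
  intro T hT P U V W Q hP hPd hUV hWQ hQ hQK
  have hT1 : (1 : ℝ) ≤ T := by exact_mod_cast hT
  have hT0 : (0 : ℝ) < T := by linarith
  have hom := ev3_omega (θ / (2 * d)) B K hε hB T hT Q hQ hQK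
  -- the minimal exponents
  have hex : ∀ p : ℕ, p.Prime → ∃ v : ℕ, 1 ≤ v ∧ (T : ℝ) ^ θ < (p : ℝ) ^ v := by
    intro p hp
    have hp1 : (1 : ℝ) < p := by exact_mod_cast hp.one_lt
    obtain ⟨n, hn⟩ := pow_unbounded_of_one_lt ((T : ℝ) ^ θ) hp1
    refine ⟨n + 1, by omega, hn.trans_le (pow_le_pow_right₀ hp1.le (by omega))⟩
  let vv : ℕ → ℕ := fun p => if hp : p.Prime then Nat.find (hex p hp) else 0
  have hvv : ∀ p : ℕ, p.Prime → 1 ≤ vv p ∧ (T : ℝ) ^ θ < (p : ℝ) ^ vv p := by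
    intro p hp
    have h1 : vv p = Nat.find (hex p hp) := dif_pos hp
    rw [h1]
    exact Nat.find_spec (hex p hp)
  have hvm : ∀ p v : ℕ, p.Prime → 1 ≤ v → (T : ℝ) ^ θ < (p : ℝ) ^ v → vv p ≤ v := by
    intro p v hp hv1 hv2
    have h1 : vv p = Nat.find (hex p hp) := dif_pos hp
    rw [h1]
    exact Nat.find_min' (hex p hp) ⟨hv1, hv2⟩
  have hsub : (Finset.Icc (-(T : ℤ)) T).filter (fun x => ∃ p v : ℕ, p.Prime ∧ (p : ℤ) ∣ Q ∧
      1 ≤ v ∧ (p : ℤ) ^ v ∣ P.eval x ∧ (T : ℝ) ^ θ < (p : ℝ) ^ v) ⊆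
      Q.natAbs.primeFactors.biUnion (fun p => (Finset.Icc (-(T : ℤ)) T).filter
        (fun x => ((p ^ vv p : ℕ) : ℤ) ∣ P.eval x)) := by
    intro x hx
    rw [Finset.mem_filter] at hx
    obtain ⟨hx1, p, v, hp, hpQ, hv, hpv, hTv⟩ := hx
    rw [Finset.mem_biUnion]
    refine ⟨p, ?_, ?_⟩
    · rw [Nat.mem_primeFactors]
      exact ⟨hp, Int.natCast_dvd.mp hpQ, Int.natAbs_ne_zero.mpr hQ⟩
    · rw [Finset.mem_filter]
      refine ⟨hx1, ?_⟩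
      push_cast
      exact (pow_dvd_pow _ (hvm p v hp hv hTv)).trans hpv
  have hcount : ∀ p ∈ Q.natAbs.primeFactors, (((Finset.Icc (-(T : ℤ)) T).filter
        (fun x => ((p ^ vv p : ℕ) : ℤ) ∣ P.eval x)).card : ℝ) ≤
        (4 * d) * (T : ℝ) ^ (1 - θ / d) := by
    intro p hp
    have hpp : p.Prime := Nat.prime_of_mem_primeFactors hp
    have hpQ : (p : ℤ) ∣ Q := Int.natCast_dvd.mpr (Nat.dvd_of_mem_primeFactors hp)
    have h1 := pt_count d hd P U V W Q hP hPd hUV hWQ (p ^ vv p)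
      (pow_ne_zero _ hpp.ne_zero) T
    have h2 := ev3_md d hd Q p (vv p) hpp hpQ (hvv p hpp).1 θ T hT (hvv p hpp).2
    have h3 : (p ^ vv p).primeFactors.card = 1 := by
      rw [Nat.primeFactors_pow p (by have := (hvv p hpp).1; omega), hpp.primeFactors,
        Finset.card_singleton]
    rw [h3, pow_one] at h1
    have h4 : 0 < (T : ℝ) ^ (θ / d) := Real.rpow_pos_of_pos hT0 _
    have h5 : (2 * (T : ℝ) + 1) / md d Q (p ^ vv p) ≤ 3 * (T : ℝ) ^ (1 - θ / d) := by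
      calc (2 * (T : ℝ) + 1) / md d Q (p ^ vv p) ≤ (2 * (T : ℝ) + 1) / (T : ℝ) ^ (θ / d) :=
            div_le_div_of_nonneg_left (by positivity) h4 h2
        _ ≤ (3 * (T : ℝ)) / (T : ℝ) ^ (θ / d) :=
            div_le_div_of_nonneg_right (by linarith) h4.le
        _ = 3 * (T : ℝ) ^ (1 - θ / d) := by
            rw [Real.rpow_sub hT0, Real.rpow_one]; ring
    have h6 : θ / d ≤ 1 := by
      rw [div_le_one hd0]; linarith
    have h7 : (1 : ℝ) ≤ (T : ℝ) ^ (1 - θ / d) := Real.one_le_rpow hT1 (by linarith)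
    calc _ ≤ (d : ℝ) * ((2 * T + 1) / md d Q (p ^ vv p) + 1) := h1
      _ ≤ (d : ℝ) * (3 * (T : ℝ) ^ (1 - θ / d) + (T : ℝ) ^ (1 - θ / d)) :=
          mul_le_mul_of_nonneg_left (add_le_add h5 h7) hd0.le
      _ = _ := by ring
  have h8 : (((Finset.Icc (-(T : ℤ)) T).filter (fun x => ∃ p v : ℕ, p.Prime ∧ (p : ℤ) ∣ Q ∧
      1 ≤ v ∧ (p : ℤ) ^ v ∣ P.eval x ∧ (T : ℝ) ^ θ < (p : ℝ) ^ v)).card : ℝ) ≤
      (Q.natAbs.primeFactors.card : ℝ) * ((4 * d) * (T : ℝ) ^ (1 - θ / d)) := by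
    have h9 := (Finset.card_le_card hsub).trans Finset.card_biUnion_le
    have h10 : (((Finset.Icc (-(T : ℤ)) T).filter (fun x => ∃ p v : ℕ, p.Prime ∧ (p : ℤ) ∣ Q ∧
      1 ≤ v ∧ (p : ℤ) ^ v ∣ P.eval x ∧ (T : ℝ) ^ θ < (p : ℝ) ^ v)).card : ℝ) ≤
      ((∑ p ∈ Q.natAbs.primeFactors, ((Finset.Icc (-(T : ℤ)) T).filter
        (fun x => ((p ^ vv p : ℕ) : ℤ) ∣ P.eval x)).card : ℕ) : ℝ) := by exact_mod_cast h9
    refine h10.trans ?_
    rw [Nat.cast_sum]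
    refine (Finset.sum_le_sum hcount).trans ?_
    rw [Finset.sum_const, nsmul_eq_mul]
  refine h8.trans ?_
  have h11 : (0 : ℝ) ≤ (4 * d) * (T : ℝ) ^ (1 - θ / d) := by positivity
  calc (Q.natAbs.primeFactors.card : ℝ) * ((4 * d) * (T : ℝ) ^ (1 - θ / d)) ≤
      (((|Real.log K| + B / (θ / (2 * d))) / Real.log 2) * (T : ℝ) ^ (θ / (2 * d))) *
        ((4 * d) * (T : ℝ) ^ (1 - θ / d)) := mul_le_mul_of_nonneg_right hom h11
    _ = ((|Real.log K| + B / (θ / (2 * d))) / Real.log 2) * (4 * d) *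
        ((T : ℝ) ^ (θ / (2 * d)) * (T : ℝ) ^ (1 - θ / d)) := by ring
    _ = ((|Real.log K| + B / (θ / (2 * d))) / Real.log 2) * (4 * d) *
        (T : ℝ) ^ (1 - θ / (2 * d)) := by
        rw [← Real.rpow_add hT0]
        congr 2
        field_simp
        ring

end SzFM
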