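import Mathlib

/-!
The number of the prime factors.
-/

namespace SzFM

theorem omega_bound (c : ℝ) (hc : 1 ≤ c) (ε : ℝ) (hε : 0 < ε) : ∃ A : ℝ, 0 < A ∧
    ∀ n : ℕ, n ≠ 0 → c ^ n.primeFactors.card ≤ A * (n : ℝ) ^ ε := by
  have hc0 : 0 < c := lt_of_lt_of_le one_pos hc
  set N : ℕ := ⌈c ^ (1 / ε)⌉₊ with hN
  refine ⟨c ^ N, pow_pos hc0 N, fun n hn => ?_⟩
  have h1 : ∀ p ∈ n.primeFactors, c ≤ (if p < N then c else 1) * (p : ℝ) ^ ε := by
    intro p hp
    have hp1 : (1 : ℝ) ≤ p := by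
      exact_mod_cast (Nat.prime_of_mem_primeFactors hp).one_lt.le
    split_ifs with h
    · have : (1 : ℝ) ≤ (p : ℝ) ^ ε := Real.one_le_rpow hp1 hε.le
      nlinarith
    · rw [one_mul]
      have h2 : c ^ (1 / ε) ≤ (p : ℝ) := (Nat.le_ceil _).trans (by exact_mod_cast not_lt.1 h)
      calc c = (c ^ (1 / ε)) ^ ε := by
            rw [← Real.rpow_mul hc0.le, one_div, inv_mul_cancel₀ hε.ne', Real.rpow_one]
        _ ≤ (p : ℝ) ^ ε := Real.rpow_le_rpow (Real.rpow_nonneg hc0.le _) h2 hε.le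
  have h2 : ∏ p ∈ n.primeFactors, (if p < N then c else 1) ≤ c ^ N := by
    rw [Finset.prod_ite, Finset.prod_const, Finset.prod_const_one, mul_one]
    refine pow_le_pow_right₀ hc ?_
    calc (n.primeFactors.filter (fun p => p < N)).card ≤ (Finset.range N).card :=
          Finset.card_le_card fun p hp => Finset.mem_range.2 (Finset.mem_filter.1 hp).2
      _ = N := Finset.card_range N
  have h3 : ∏ p ∈ n.primeFactors, (p : ℝ) ^ ε ≤ (n : ℝ) ^ ε := by
    rw [Real.finsetProd_rpow _ _ (fun p _ => Nat.cast_nonneg p)]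
    refine Real.rpow_le_rpow (Finset.prod_nonneg fun p _ => Nat.cast_nonneg p) ?_ hε.le
    rw [← Nat.cast_prod]
    exact_mod_cast Nat.le_of_dvd (Nat.pos_of_ne_zero hn) (Nat.prod_primeFactors_dvd n)
  calc c ^ n.primeFactors.card = ∏ _p ∈ n.primeFactors, c := (Finset.prod_const c).symm
    _ ≤ ∏ p ∈ n.primeFactors, (if p < N then c else 1) * (p : ℝ) ^ ε :=
        Finset.prod_le_prod (fun _ _ => hc0.le) h1
    _ = (∏ p ∈ n.primeFactors, (if p < N then c else 1)) * ∏ p ∈ n.primeFactors, (p : ℝ) ^ ε :=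
        Finset.prod_mul_distrib
    _ ≤ c ^ N * (n : ℝ) ^ ε := by
        refine mul_le_mul h2 h3 (Finset.prod_nonneg fun p _ => Real.rpow_nonneg (Nat.cast_nonneg p) _)
          (pow_nonneg hc0.le N)

end SzFM
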