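import Pool.Agent.SzFM.Md
import Pool.Agent.SzFM.Omg

/-!
Rankin's method.
-/

open scoped Classical

namespace SzFM

private theorem eul_ex (d : ℕ) (hd : 1 ≤ d) (Q : ℤ) (p k : ℕ) (hp : (p : ℤ) ∣ Q) :
    (k : ℝ) / d ≤ (ex d Q p k : ℝ) := by
  have hd0 : (0 : ℝ) < d := by exact_mod_cast hd
  rw [ex, if_pos hp, div_le_iff₀ hd0]
  have h1 := Nat.div_add_mod (k + d - 1) d
  have h2 := Nat.mod_lt (k + d - 1) (show 0 < d by omega)
  have h3 : k ≤ (k + d - 1) / d * d := by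
    rw [mul_comm]
    omega
  exact_mod_cast h3

/-- the local factor -/
private noncomputable def lf (d : ℕ) (Q : ℤ) (p k : ℕ) : ℝ :=
  (if k = 0 then 1 else 0) +
    (if 1 ≤ k ∧ (¬ (p : ℤ) ∣ Q → 2 ≤ k) then
      (d : ℝ) * ((p : ℝ) ^ ex d Q p k)⁻¹ * ((p : ℝ) ^ k) ^ (1 / (4 * (d : ℝ))) else 0)

private theorem lf_nonneg (d : ℕ) (Q : ℤ) (p k : ℕ) : 0 ≤ lf d Q p k := by
  rw [lf]
  apply add_nonneg
  · split_ifs <;> norm_num
  · split_ifs
    · positivity
    · exact le_refl _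

private theorem lf_sum_le (d : ℕ) (Q : ℤ) (p K : ℕ) :
    ∑ k ∈ Finset.range K, lf d Q p k ≤ 1 + ∑ k ∈ (Finset.range K).filter
      (fun k => 1 ≤ k ∧ (¬ (p : ℤ) ∣ Q → 2 ≤ k)),
        (d : ℝ) * ((p : ℝ) ^ ex d Q p k)⁻¹ * ((p : ℝ) ^ k) ^ (1 / (4 * (d : ℝ))) := by
  simp only [lf]
  rw [Finset.sum_add_distrib]
  apply add_le_add
  · rw [Finset.sum_ite_eq' (Finset.range K) 0 (fun _ => (1 : ℝ))]
    split_ifs <;> norm_num
  · rw [← Finset.sum_filter]

private theorem lf_pow (d : ℕ) (p k : ℕ) :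
    ((p : ℝ) ^ k) ^ (1 / (4 * (d : ℝ))) = (p : ℝ) ^ ((k : ℝ) * (1 / (4 * (d : ℝ)))) := by
  rw [← Real.rpow_natCast, ← Real.rpow_mul (Nat.cast_nonneg p)]

/-- the primes not dividing `Q` -/
private theorem local1 (d : ℕ) (hd : 1 ≤ d) (Q : ℤ) (p : ℕ) (hp : p.Prime)
    (hpQ : ¬ (p : ℤ) ∣ Q) (K : ℕ) :
    ∑ k ∈ Finset.range K, lf d Q p k ≤
      1 + (d / (1 - (2 : ℝ) ^ (-(3 / 4) : ℝ))) * (p : ℝ) ^ (-(3 / 2) : ℝ) := by
  have hd1 : (1 : ℝ) ≤ d := by exact_mod_cast hd
  have hd0 : (0 : ℝ) < d := by linarith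
  have hp2 : (2 : ℝ) ≤ p := by exact_mod_cast hp.two_le
  have hp1 : (1 : ℝ) ≤ p := by linarith
  have hp0 : (0 : ℝ) < p := by linarith
  refine (lf_sum_le d Q p K).trans ?_
  refine add_le_add_right ?_ 1
  set x : ℝ := (p : ℝ) ^ (-(3 / 4) : ℝ) with hx
  have hx0 : 0 < x := Real.rpow_pos_of_pos hp0 _
  set q : ℝ := (2 : ℝ) ^ (-(3 / 4) : ℝ) with hq
  have hxq : x ≤ q := Real.rpow_le_rpow_of_nonpos (by norm_num) hp2 (by norm_num)
  have hq1 : q < 1 := Real.rpow_lt_one_of_one_lt_of_neg (by norm_num) (by norm_num)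
  have hx1 : x < 1 := lt_of_le_of_lt hxq hq1
  calc _ ≤ ∑ k ∈ Finset.Ico 2 K, (d : ℝ) * x ^ k := by
        refine (Finset.sum_le_sum (g := fun k => (d : ℝ) * x ^ k) fun k hk => ?_).trans
          (Finset.sum_le_sum_of_subset_of_nonneg ?_ fun k _ _ => by positivity)
        · rw [lf_pow, ex, if_neg hpQ]
          have h1 : ((p : ℝ) ^ k)⁻¹ = (p : ℝ) ^ (-(k : ℝ)) := by
            rw [Real.rpow_neg hp0.le, Real.rpow_natCast]
          have h2 : x ^ k = (p : ℝ) ^ (-(3 / 4) * (k : ℝ)) := by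
            rw [hx, ← Real.rpow_natCast, ← Real.rpow_mul hp0.le]
          rw [h1, h2, mul_assoc, ← Real.rpow_add hp0]
          refine mul_le_mul_of_nonneg_left ?_ hd0.le
          apply Real.rpow_le_rpow_of_exponent_le hp1
          have h3 : 1 / (4 * (d : ℝ)) ≤ 1 / 4 := by
            apply one_div_le_one_div_of_le (by norm_num)
            linarith
          have h4 : (0 : ℝ) ≤ k := Nat.cast_nonneg k
          nlinarith
        · intro k hk
          rw [Finset.mem_filter, Finset.mem_range] at hk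
          rw [Finset.mem_Ico]
          exact ⟨hk.2.2 hpQ, hk.1⟩
    _ ≤ (d : ℝ) * (x ^ 2 / (1 - x)) := by
        rw [← Finset.mul_sum]
        exact mul_le_mul_of_nonneg_left (geom_sum_Ico_le_of_lt_one hx0.le hx1) hd0.le
    _ ≤ (d : ℝ) * ((p : ℝ) ^ (-(3 / 2) : ℝ) / (1 - q)) := by
        refine mul_le_mul_of_nonneg_left ?_ hd0.le
        apply div_le_div₀ (Real.rpow_nonneg hp0.le _) _ (by linarith) (by linarith)
        rw [hx, ← Real.rpow_natCast, ← Real.rpow_mul hp0.le]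
        norm_num
    _ = _ := by ring

/-- the primes dividing `Q` -/
private theorem local2 (d : ℕ) (hd : 1 ≤ d) (Q : ℤ) (p : ℕ) (hp : p.Prime)
    (hpQ : (p : ℤ) ∣ Q) (K : ℕ) :
    ∑ k ∈ Finset.range K, lf d Q p k ≤
      1 + (d / (1 - (2 : ℝ) ^ (-(3 / (4 * (d : ℝ)))))) := by
  have hd1 : (1 : ℝ) ≤ d := by exact_mod_cast hd
  have hd0 : (0 : ℝ) < d := by linarith
  have hp2 : (2 : ℝ) ≤ p := by exact_mod_cast hp.two_le
  have hp1 : (1 : ℝ) ≤ p := by linarith
  have hp0 : (0 : ℝ) < p := by linarith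
  refine (lf_sum_le d Q p K).trans ?_
  refine add_le_add_right ?_ 1
  have he : -(3 / (4 * (d : ℝ))) < 0 := by
    have : 0 < 3 / (4 * (d : ℝ)) := by positivity
    linarith
  set x : ℝ := (p : ℝ) ^ (-(3 / (4 * (d : ℝ)))) with hx
  have hx0 : 0 < x := Real.rpow_pos_of_pos hp0 _
  set q : ℝ := (2 : ℝ) ^ (-(3 / (4 * (d : ℝ)))) with hq
  have hxq : x ≤ q := Real.rpow_le_rpow_of_nonpos (by norm_num) hp2 he.le
  have hq1 : q < 1 := Real.rpow_lt_one_of_one_lt_of_neg (by norm_num) he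
  have hx1 : x < 1 := lt_of_le_of_lt hxq hq1
  calc _ ≤ ∑ k ∈ Finset.Ico 0 K, (d : ℝ) * x ^ k := by
        refine (Finset.sum_le_sum (g := fun k => (d : ℝ) * x ^ k) fun k hk => ?_).trans
          (Finset.sum_le_sum_of_subset_of_nonneg ?_ fun k _ _ => by positivity)
        · rw [lf_pow]
          have h1 : ((p : ℝ) ^ ex d Q p k)⁻¹ = (p : ℝ) ^ (-(ex d Q p k : ℝ)) := by
            rw [Real.rpow_neg hp0.le, Real.rpow_natCast]
          have h2 : x ^ k = (p : ℝ) ^ (-(3 / (4 * (d : ℝ))) * (k : ℝ)) := by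
            rw [hx, ← Real.rpow_natCast, ← Real.rpow_mul hp0.le]
          rw [h1, h2, mul_assoc, ← Real.rpow_add hp0]
          refine mul_le_mul_of_nonneg_left ?_ hd0.le
          apply Real.rpow_le_rpow_of_exponent_le hp1
          have h3 := eul_ex d hd Q p k hpQ
          have h4 : (k : ℝ) * (1 / (4 * (d : ℝ))) - (k : ℝ) / d =
              -(3 / (4 * (d : ℝ))) * (k : ℝ) := by
            field_simp
            ring
          linarith
        · intro k hk
          rw [Finset.mem_filter, Finset.mem_range] at hk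
          rw [Finset.mem_Ico]
          exact ⟨Nat.zero_le _, hk.1⟩
    _ ≤ (d : ℝ) * (x ^ 0 / (1 - x)) := by
        rw [← Finset.mul_sum]
        exact mul_le_mul_of_nonneg_left (geom_sum_Ico_le_of_lt_one hx0.le hx1) hd0.le
    _ ≤ (d : ℝ) * (1 / (1 - q)) := by
        refine mul_le_mul_of_nonneg_left ?_ hd0.le
        rw [pow_zero]
        apply div_le_div₀ (by norm_num) le_rfl (by linarith) (by linarith)
    _ = _ := by ring

private theorem fact_eq (d : ℕ) (Q : ℤ) (b : ℕ) (hb : Adm Q b) (s : Finset ℕ)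
    (hsub : b.primeFactors ⊆ s) :
    (d : ℝ) ^ b.primeFactors.card / md d Q b * (b : ℝ) ^ (1 / (4 * (d : ℝ))) =
      ∏ p ∈ s, lf d Q p (b.factorization p) := by
  obtain ⟨hb0, hb2⟩ := hb
  rw [← Finset.prod_subset hsub]
  · have e2 : (b : ℝ) ^ (1 / (4 * (d : ℝ))) =
        ∏ p ∈ b.primeFactors, ((p : ℝ) ^ b.factorization p) ^ (1 / (4 * (d : ℝ))) := by
      rw [Real.finsetProd_rpow _ _ (fun i _ => by positivity)]
      congr 1
      conv_lhs => rw [← Nat.prod_factorization_pow_eq_self hb0]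
      rw [Finsupp.prod, Nat.support_factorization]
      push_cast
      rfl
    rw [e2, md, ← Finset.prod_const, ← Finset.prod_div_distrib, ← Finset.prod_mul_distrib]
    apply Finset.prod_congr rfl
    intro p hp
    have hpp := Nat.prime_of_mem_primeFactors hp
    have hpd := Nat.dvd_of_mem_primeFactors hp
    have h1v : 1 ≤ b.factorization p := hpp.factorization_pos_of_dvd hb0 hpd
    have h2v : ¬ (p : ℤ) ∣ Q → 2 ≤ b.factorization p := fun h =>
      (hpp.pow_dvd_iff_le_factorization hb0).mp (hb2 p hpp hpd h)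
    rw [lf, if_neg (by omega), if_pos ⟨h1v, h2v⟩, zero_add, div_eq_mul_inv]
  · intro p _ hp
    have : b.factorization p = 0 := by
      rw [← Nat.support_factorization, Finsupp.notMem_support_iff] at hp
      exact hp
    simp [lf, this]

theorem eul (d : ℕ) (hd : 1 ≤ d) (ε : ℝ) (hε : 0 < ε) : ∃ A : ℝ, 0 < A ∧
    ∀ Q : ℤ, Q ≠ 0 → ∀ (S : Finset ℕ) (Y : ℝ), 1 ≤ Y → (∀ b ∈ S, Adm Q b ∧ Y ≤ b) →
      ∑ b ∈ S, (d : ℝ) ^ b.primeFactors.card / md d Q b ≤
        A * |(Q : ℝ)| ^ ε * Y ^ (-(1 / (4 * (d : ℝ)))) := by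
  have hd1 : (1 : ℝ) ≤ d := by exact_mod_cast hd
  have hd0 : (0 : ℝ) < d := by linarith
  set C1 : ℝ := d / (1 - (2 : ℝ) ^ (-(3 / 4) : ℝ)) with hC1
  set C2 : ℝ := d / (1 - (2 : ℝ) ^ (-(3 / (4 * (d : ℝ))))) with hC2
  have hq1 : (2 : ℝ) ^ (-(3 / 4) : ℝ) < 1 :=
    Real.rpow_lt_one_of_one_lt_of_neg (by norm_num) (by norm_num)
  have he : -(3 / (4 * (d : ℝ))) < 0 := by
    have : 0 < 3 / (4 * (d : ℝ)) := by positivity
    linarith
  have hq2 : (2 : ℝ) ^ (-(3 / (4 * (d : ℝ)))) < 1 :=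
    Real.rpow_lt_one_of_one_lt_of_neg (by norm_num) he
  have hC10 : 0 ≤ C1 := div_nonneg hd0.le (by linarith)
  have hC20 : 0 ≤ C2 := div_nonneg hd0.le (by linarith)
  obtain ⟨A', hA', hom⟩ := omega_bound (1 + C2) (by linarith) ε hε
  have hsum : Summable (fun n : ℕ => (n : ℝ) ^ (-(3 / 2) : ℝ)) :=
    Real.summable_nat_rpow.mpr (by norm_num)
  refine ⟨Real.exp (C1 * ∑' n : ℕ, (n : ℝ) ^ (-(3 / 2) : ℝ)) * A',
    mul_pos (Real.exp_pos _) hA', ?_⟩
  intro Q hQ S Y hY hS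
  set σ : ℝ := 1 / (4 * (d : ℝ)) with hσ
  have hσ0 : 0 < σ := by positivity
  have hY0 : 0 < Y := by linarith
  set F : ℕ → ℝ := fun b => (d : ℝ) ^ b.primeFactors.card / md d Q b with hF
  have hF0 : ∀ b, 0 ≤ F b := by
    intro b
    simp only [hF, md]
    positivity
  set s : Finset ℕ := S.biUnion Nat.primeFactors with hs
  set K : ℕ := S.sup id + 1 with hK
  have hsp : ∀ p ∈ s, p.Prime := by
    intro p hp
    rw [hs, Finset.mem_biUnion] at hp
    obtain ⟨b, _, hb⟩ := hp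
    exact Nat.prime_of_mem_primeFactors hb
  have hfact : ∀ b ∈ S, F b * (b : ℝ) ^ σ = ∏ p ∈ s, lf d Q p (b.factorization p) := by
    intro b hb
    exact fact_eq d Q b (hS b hb).1 s (Finset.subset_biUnion_of_mem Nat.primeFactors hb)
  have hstep1 : ∑ b ∈ S, F b ≤ Y ^ (-σ) * ∑ b ∈ S, F b * (b : ℝ) ^ σ := by
    rw [Finset.mul_sum]
    apply Finset.sum_le_sum
    intro b hb
    have hYb := (hS b hb).2
    have h5 : 1 ≤ Y ^ (-σ) * (b : ℝ) ^ σ := by
      rw [Real.rpow_neg hY0.le, ← div_eq_inv_mul, le_div_iff₀ (Real.rpow_pos_of_pos hY0 _), one_mul]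
      exact Real.rpow_le_rpow hY0.le hYb hσ0.le
    calc F b = F b * 1 := (mul_one _).symm
      _ ≤ F b * (Y ^ (-σ) * (b : ℝ) ^ σ) := mul_le_mul_of_nonneg_left h5 (hF0 b)
      _ = _ := by ring
  have hstep2 : ∑ b ∈ S, F b * (b : ℝ) ^ σ ≤ ∏ p ∈ s, ∑ k ∈ Finset.range K, lf d Q p k := by
    rw [Finset.prod_sum]
    set ι : ℕ → ((a : ℕ) → a ∈ s → ℕ) := fun b p _ => b.factorization p with hι
    have hinj : Set.InjOn ι S := by
      intro b hb b' hb' hbb
      have hb0 := (hS b hb).1.1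
      have hb0' := (hS b' hb').1.1
      apply Nat.eq_of_factorization_eq hb0 hb0'
      intro p
      by_cases hp : p ∈ s
      · exact congrFun (congrFun hbb p) hp
      · have a1 : b.factorization p = 0 := by
          rw [← Finsupp.notMem_support_iff, Nat.support_factorization]
          exact fun hc => hp (Finset.subset_biUnion_of_mem Nat.primeFactors hb hc)
        have a2 : b'.factorization p = 0 := by
          rw [← Finsupp.notMem_support_iff, Nat.support_factorization]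
          exact fun hc => hp (Finset.subset_biUnion_of_mem Nat.primeFactors hb' hc)
        rw [a1, a2]
    have e3 : ∑ b ∈ S, F b * (b : ℝ) ^ σ =
        ∑ e ∈ S.image ι, ∏ x ∈ s.attach, lf d Q x.1 (e x.1 x.2) := by
      rw [Finset.sum_image hinj]
      apply Finset.sum_congr rfl
      intro b hb
      rw [hfact b hb, ← Finset.prod_attach]
    rw [e3]
    apply Finset.sum_le_sum_of_subset_of_nonneg
    · intro e he
      rw [Finset.mem_image] at he
      obtain ⟨b, hb, rfl⟩ := he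
      rw [Finset.mem_pi]
      intro p _
      rw [Finset.mem_range, hι, hK]
      have hlt : b.factorization p < b := Nat.factorization_lt p (hS b hb).1.1
      have hle : b ≤ S.sup id := Finset.le_sup (f := id) hb
      show b.factorization p < _
      omega
    · intro e _ _
      exact Finset.prod_nonneg (fun x _ => lf_nonneg _ _ _ _)
  have hstep3 : ∏ p ∈ s, ∑ k ∈ Finset.range K, lf d Q p k ≤
      Real.exp (C1 * ∑' n : ℕ, (n : ℝ) ^ (-(3 / 2) : ℝ)) * (A' * |(Q : ℝ)| ^ ε) := by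
    have h6 : ∏ p ∈ s, ∑ k ∈ Finset.range K, lf d Q p k ≤
        ∏ p ∈ s, (Real.exp (C1 * (p : ℝ) ^ (-(3 / 2) : ℝ)) *
          (if (p : ℤ) ∣ Q then 1 + C2 else 1)) := by
      apply Finset.prod_le_prod
      · intro p _
        exact Finset.sum_nonneg (fun k _ => lf_nonneg _ _ _ _)
      · intro p hp
        have hpp := hsp p hp
        by_cases hpQ : (p : ℤ) ∣ Q
        · rw [if_pos hpQ]
          have h8 := local2 d hd Q p hpp hpQ K
          have h9 : 1 ≤ Real.exp (C1 * (p : ℝ) ^ (-(3 / 2) : ℝ)) := by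
            apply Real.one_le_exp
            positivity
          calc _ ≤ 1 + C2 := h8
            _ = 1 * (1 + C2) := (one_mul _).symm
            _ ≤ _ := mul_le_mul_of_nonneg_right h9 (by linarith)
        · rw [if_neg hpQ, mul_one]
          have h8 := local1 d hd Q p hpp hpQ K
          calc _ ≤ 1 + C1 * (p : ℝ) ^ (-(3 / 2) : ℝ) := h8
            _ = C1 * (p : ℝ) ^ (-(3 / 2) : ℝ) + 1 := by ring
            _ ≤ _ := Real.add_one_le_exp _
    refine h6.trans ?_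
    rw [Finset.prod_mul_distrib, ← Real.exp_sum]
    have h10 : ∏ p ∈ s, (if (p : ℤ) ∣ Q then 1 + C2 else 1) ≤ A' * |(Q : ℝ)| ^ ε := by
      rw [← Finset.prod_filter, Finset.prod_const]
      have h11 : (s.filter (fun p : ℕ => (p : ℤ) ∣ Q)).card ≤ Q.natAbs.primeFactors.card := by
        apply Finset.card_le_card
        intro p hp
        rw [Finset.mem_filter] at hp
        rw [Nat.mem_primeFactors]
        exact ⟨hsp p hp.1, Int.natCast_dvd.1 hp.2, Int.natAbs_ne_zero.2 hQ⟩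
      have h12 := hom Q.natAbs (Int.natAbs_ne_zero.2 hQ)
      have h13 : ((Q.natAbs : ℕ) : ℝ) = |(Q : ℝ)| := by
        rw [Nat.cast_natAbs, Int.cast_abs]
      rw [h13] at h12
      exact (pow_le_pow_right₀ (by linarith) h11).trans h12
    refine mul_le_mul ?_ h10 ?_ (Real.exp_pos _).le
    · apply Real.exp_le_exp.mpr
      rw [← Finset.mul_sum]
      apply mul_le_mul_of_nonneg_left _ hC10
      exact hsum.sum_le_tsum s (fun i _ => Real.rpow_nonneg (by positivity) _)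
    · apply Finset.prod_nonneg
      intro p _
      split_ifs <;> linarith
  calc ∑ b ∈ S, F b ≤ Y ^ (-σ) * ∑ b ∈ S, F b * (b : ℝ) ^ σ := hstep1
    _ ≤ Y ^ (-σ) * (Real.exp (C1 * ∑' n : ℕ, (n : ℝ) ^ (-(3 / 2) : ℝ)) *
        (A' * |(Q : ℝ)| ^ ε)) :=
        mul_le_mul_of_nonneg_left (hstep2.trans hstep3) (Real.rpow_nonneg hY0.le _)
    _ = _ := by ring

end SzFM
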