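import Pool.Agent.SzFM.Pt
import Pool.Agent.SzFM.Eul

/-!
Admissible divisors of moderate size.
-/

open Polynomial
open scoped Classical

namespace SzFM

theorem ev4_md (d : ℕ) (hd : 1 ≤ d) (Q : ℤ) (b : ℕ) (hb : b ≠ 0) :
    0 < md d Q b ∧ md d Q b ≤ b := by
  constructor
  · refine Finset.prod_pos fun p hp => pow_pos ?_ _
    exact_mod_cast (Nat.prime_of_mem_primeFactors hp).pos
  · have h1 : (b : ℝ) = ∏ p ∈ b.primeFactors, (p : ℝ) ^ b.factorization p := by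
      conv_lhs => rw [← Nat.prod_factorization_pow_eq_self hb]
      rw [Finsupp.prod, Nat.support_factorization]
      push_cast
      rfl
    conv_rhs => rw [h1]
    refine Finset.prod_le_prod (fun p hp => pow_nonneg (Nat.cast_nonneg _) _) fun p hp => ?_
    have hpp := Nat.prime_of_mem_primeFactors hp
    refine pow_le_pow_right₀ (by exact_mod_cast hpp.one_lt.le) ?_
    unfold ex
    split_ifs
    · have hv : 1 ≤ b.factorization p :=
        (hpp.dvd_iff_one_le_factorization hb).1 (Nat.dvd_of_mem_primeFactors hp)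
      refine Nat.le_of_lt_succ (Nat.div_lt_of_lt_mul ?_)
      have h2 : b.factorization p ≤ d * b.factorization p := Nat.le_mul_of_pos_left _ hd
      rw [Nat.mul_succ]
      omega
    · exact le_rfl

theorem ev4 (d : ℕ) (hd : 1 ≤ d) (τ B K : ℝ) (hτ : 0 < τ) (hB : 0 ≤ B) :
    ∃ A η : ℝ, 0 < η ∧ ∀ T : ℕ, 1 ≤ T → ∀ (P U V : ℤ[X]) (W Q : ℤ),
      P.IsPrimitive → P.natDegree ≤ d → U * P + V * derivative P = C W → W ∣ Q → Q ≠ 0 →
      |(Q : ℝ)| ≤ K * (T : ℝ) ^ B →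
      (((Finset.Icc (-(T : ℤ)) T).filter (fun x => ∃ b : ℕ, Adm Q b ∧ (T : ℝ) ^ τ ≤ b ∧
        b ≤ T ∧ (b : ℤ) ∣ P.eval x)).card : ℝ) ≤ A * (T : ℝ) ^ (1 - η) := by
  have hd' : (0 : ℝ) < d := by exact_mod_cast hd
  set ε : ℝ := τ / (8 * d * (B + 1)) with hε
  have hε0 : 0 < ε := by positivity
  obtain ⟨A0, hA0, hE⟩ := eul d hd ε hε0
  refine ⟨4 * A0 * K ^ ε, τ / (8 * d), by positivity, ?_⟩
  intro T hT P U V W Q hP hPd h hWQ hQ0 hQK
  have hT1 : (1 : ℝ) ≤ T := by exact_mod_cast hT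
  have hT0 : (0 : ℝ) < T := by linarith
  have hQ1 : (1 : ℝ) ≤ |(Q : ℝ)| := by
    rw [← Int.cast_abs]
    exact_mod_cast Int.one_le_abs hQ0
  have hK : 0 < K := by
    by_contra hcon
    push Not at hcon
    have : K * (T : ℝ) ^ B ≤ 0 := mul_nonpos_of_nonpos_of_nonneg hcon (by positivity)
    linarith
  set S : Finset ℕ := (Finset.Icc 1 T).filter (fun b => Adm Q b ∧ (T : ℝ) ^ τ ≤ b) with hS
  have hsub : ((Finset.Icc (-(T : ℤ)) T).filter (fun x => ∃ b : ℕ, Adm Q b ∧ (T : ℝ) ^ τ ≤ b ∧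
        b ≤ T ∧ (b : ℤ) ∣ P.eval x)) ⊆
      S.biUnion (fun b => (Finset.Icc (-(T : ℤ)) T).filter (fun x => (b : ℤ) ∣ P.eval x)) := by
    intro x hx
    rw [Finset.mem_filter] at hx
    obtain ⟨hx1, b, hb1, hb2, hb3, hb4⟩ := hx
    rw [Finset.mem_biUnion]
    refine ⟨b, ?_, Finset.mem_filter.2 ⟨hx1, hb4⟩⟩
    rw [hS, Finset.mem_filter, Finset.mem_Icc]
    exact ⟨⟨Nat.one_le_iff_ne_zero.2 hb1.1, hb3⟩, hb1, hb2⟩
  have h1 : (((Finset.Icc (-(T : ℤ)) T).filter (fun x => ∃ b : ℕ, Adm Q b ∧ (T : ℝ) ^ τ ≤ b ∧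
        b ≤ T ∧ (b : ℤ) ∣ P.eval x)).card : ℝ) ≤
      ∑ b ∈ S, (((Finset.Icc (-(T : ℤ)) T).filter (fun x => (b : ℤ) ∣ P.eval x)).card : ℝ) := by
    exact_mod_cast (Finset.card_le_card hsub).trans Finset.card_biUnion_le
  have h2 : ∀ b ∈ S, (((Finset.Icc (-(T : ℤ)) T).filter (fun x => (b : ℤ) ∣ P.eval x)).card : ℝ) ≤
      4 * T * ((d : ℝ) ^ b.primeFactors.card / md d Q b) := by
    intro b hb
    rw [hS, Finset.mem_filter, Finset.mem_Icc] at hb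
    have hb0 : b ≠ 0 := by omega
    have h3 := pt_count d hd P U V W Q hP hPd h hWQ b hb0 T
    obtain ⟨hm0, hm1⟩ := ev4_md d hd Q b hb0
    have hbT : (b : ℝ) ≤ T := by exact_mod_cast hb.1.2
    have h4 : (2 * (T : ℝ) + 1) / md d Q b + 1 ≤ 4 * T / md d Q b := by
      have h5 : (2 * (T : ℝ) + 1) / md d Q b + 1 = (2 * T + 1 + md d Q b) / md d Q b := by
        field_simp
      rw [h5]
      exact div_le_div_of_nonneg_right (by linarith) hm0.le
    calc _ ≤ (d : ℝ) ^ b.primeFactors.card * ((2 * T + 1) / md d Q b + 1) := h3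
      _ ≤ (d : ℝ) ^ b.primeFactors.card * (4 * T / md d Q b) :=
        mul_le_mul_of_nonneg_left h4 (by positivity)
      _ = 4 * T * ((d : ℝ) ^ b.primeFactors.card / md d Q b) := by ring
  have hY : (1 : ℝ) ≤ (T : ℝ) ^ τ := Real.one_le_rpow hT1 hτ.le
  have h3 := hE Q hQ0 S ((T : ℝ) ^ τ) hY (fun b hb => by
    rw [hS, Finset.mem_filter] at hb
    exact hb.2)
  have h4 : |(Q : ℝ)| ^ ε ≤ K ^ ε * (T : ℝ) ^ (τ / (8 * d)) := by
    calc |(Q : ℝ)| ^ ε ≤ (K * (T : ℝ) ^ B) ^ ε := Real.rpow_le_rpow (abs_nonneg _) hQK hε0.le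
      _ = K ^ ε * (T : ℝ) ^ (B * ε) := by
        rw [Real.mul_rpow hK.le (by positivity), ← Real.rpow_mul hT0.le]
      _ ≤ K ^ ε * (T : ℝ) ^ (τ / (8 * d)) := by
        refine mul_le_mul_of_nonneg_left (Real.rpow_le_rpow_of_exponent_le hT1 ?_) (by positivity)
        rw [hε]
        have : B * (τ / (8 * d * (B + 1))) = τ / (8 * d) * (B / (B + 1)) := by
          field_simp
        rw [this]
        refine mul_le_of_le_one_right (by positivity) ?_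
        rw [div_le_one (by linarith)]
        linarith
  have h5 : ((T : ℝ) ^ τ) ^ (-(1 / (4 * (d : ℝ)))) = (T : ℝ) ^ (-(τ / (4 * d))) := by
    rw [← Real.rpow_mul hT0.le]
    congr 1
    field_simp
  calc _ ≤ ∑ b ∈ S, (((Finset.Icc (-(T : ℤ)) T).filter
          (fun x => (b : ℤ) ∣ P.eval x)).card : ℝ) := h1
    _ ≤ ∑ b ∈ S, 4 * T * ((d : ℝ) ^ b.primeFactors.card / md d Q b) := Finset.sum_le_sum h2
    _ = 4 * T * ∑ b ∈ S, (d : ℝ) ^ b.primeFactors.card / md d Q b := by rw [← Finset.mul_sum]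
    _ ≤ 4 * T * (A0 * |(Q : ℝ)| ^ ε * ((T : ℝ) ^ τ) ^ (-(1 / (4 * (d : ℝ))))) :=
      mul_le_mul_of_nonneg_left h3 (by positivity)
    _ ≤ 4 * T * (A0 * (K ^ ε * (T : ℝ) ^ (τ / (8 * d))) * (T : ℝ) ^ (-(τ / (4 * d)))) := by
      rw [h5]
      refine mul_le_mul_of_nonneg_left (mul_le_mul_of_nonneg_right
        (mul_le_mul_of_nonneg_left h4 hA0.le) (by positivity)) (by positivity)
    _ = 4 * A0 * K ^ ε * ((T : ℝ) ^ (1 : ℝ) * (T : ℝ) ^ (τ / (8 * d)) *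
        (T : ℝ) ^ (-(τ / (4 * d)))) := by
      rw [Real.rpow_one]
      ring
    _ = 4 * A0 * K ^ ε * (T : ℝ) ^ (1 - τ / (8 * d)) := by
      rw [← Real.rpow_add hT0, ← Real.rpow_add hT0]
      congr 2
      field_simp
      ring

end SzFM
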