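import Mathlib

/-!
A partial product of prescribed size.
-/

open scoped Classical

namespace SzFM

theorem greedy (F : Finset ℕ) (f : ℕ → ℝ) (z Y : ℝ) (hf : ∀ p ∈ F, 1 ≤ f p ∧ f p ≤ z)
    (hY : 1 ≤ Y) (hV : Y < ∏ p ∈ F, f p) :
    ∃ F' ⊆ F, Y < ∏ p ∈ F', f p ∧ ∏ p ∈ F', f p ≤ Y * z := by
  induction F using Finset.induction_on with
  | empty =>
    rw [Finset.prod_empty] at hV
    linarith
  | insert p F hp ih =>
    by_cases h : Y < ∏ q ∈ F, f q
    · obtain ⟨F', hF', h1, h2⟩ := ih (fun q hq => hf q (Finset.mem_insert_of_mem hq)) h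
      exact ⟨F', hF'.trans (Finset.subset_insert p F), h1, h2⟩
    · refine ⟨insert p F, subset_rfl, hV, ?_⟩
      have h3 := hf p (Finset.mem_insert_self p F)
      rw [Finset.prod_insert hp]
      calc f p * ∏ q ∈ F, f q ≤ z * Y :=
            mul_le_mul h3.2 (not_lt.1 h) (Finset.prod_nonneg fun q hq =>
              zero_le_one.trans (hf q (Finset.mem_insert_of_mem hq)).1)
              (zero_le_one.trans (h3.1.trans h3.2))
        _ = Y * z := mul_comm z Y

end SzFM
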