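import Pool.Agent.SzFM.Ev1
import Pool.Agent.SzFM.Ev3
import Pool.Agent.SzFM.Ev4
import Pool.Agent.SzFM.Grd
import Pool.Agent.SzC2.Cls

/-!
Values of a polynomial have a large squarefree kernel, uniformly in the polynomial.
-/

open Polynomial
open scoped Classical

namespace SzFM

/-- the product of the prime factors of `x` which do not divide `Q` -/
noncomputable def ker (Q x : ℤ) : ℕ :=
  ∏ p ∈ x.natAbs.primeFactors.filter (fun p : ℕ => ¬ (p : ℤ) ∣ Q), p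

private lemma uni_ker_pos (Q x : ℤ) : 0 < ker Q x := by
  unfold ker
  exact Finset.prod_pos fun p hp =>
    (Nat.prime_of_mem_primeFactors (Finset.mem_filter.1 hp).1).pos

/-- the arithmetic core -/
private lemma uni_core (T : ℝ) (hT : 1 ≤ T) (ε : ℝ) (hε : 0 < ε) (hε1 : ε ≤ 1) (Q y : ℤ)
    (hn : T ^ (1 - ε / 8) < |(y : ℝ)|)
    (h1 : ¬ ∃ p v : ℕ, p.Prime ∧ ¬ (p : ℤ) ∣ Q ∧ 2 ≤ v ∧ (p : ℤ) ^ v ∣ y ∧
      T ^ (ε / 8) < (p : ℝ) ^ v ∧ (p : ℝ) ≤ T ^ (1 - ε / 8))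
    (h3 : ¬ ∃ p v : ℕ, p.Prime ∧ (p : ℤ) ∣ Q ∧ 1 ≤ v ∧ (p : ℤ) ^ v ∣ y ∧
      T ^ (ε / 8) < (p : ℝ) ^ v)
    (h4 : ¬ ∃ b : ℕ, Adm Q b ∧ T ^ (ε / 2) ≤ b ∧ (b : ℝ) ≤ T ∧ (b : ℤ) ∣ y) :
    T ^ (1 - ε) ≤ (ker Q y : ℝ) := by
  by_contra hker
  rw [not_le] at hker
  have hT0 : 0 < T := by linarith
  have hn1 : (1 : ℝ) < |(y : ℝ)| := lt_of_le_of_lt (Real.one_le_rpow hT (by linarith)) hn
  have hy0 : y ≠ 0 := by
    rintro rfl
    simp at hn1
    linarith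
  set n : ℕ := y.natAbs with hndef
  have hn0 : n ≠ 0 := Int.natAbs_ne_zero.2 hy0
  have hnR : (n : ℝ) = |(y : ℝ)| := by
    rw [hndef, Nat.cast_natAbs, Int.cast_abs]
  have hdvd : ∀ b : ℕ, b ∣ n → (b : ℤ) ∣ y := fun b hb => Int.natCast_dvd.2 hb
  set F : Finset ℕ := n.primeFactors.filter (fun p : ℕ => (p : ℤ) ∣ Q ∨ 2 ≤ n.factorization p)
    with hF
  set G : Finset ℕ := n.primeFactors.filter (fun p : ℕ => ¬ ((p : ℤ) ∣ Q ∨ 2 ≤ n.factorization p))
    with hG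
  have hprime : ∀ p ∈ n.primeFactors, p.Prime := fun p hp => Nat.prime_of_mem_primeFactors hp
  have hfac1 : ∀ p ∈ n.primeFactors, 1 ≤ n.factorization p := fun p hp =>
    ((hprime p hp).dvd_iff_one_le_factorization hn0).1 (Nat.dvd_of_mem_primeFactors hp)
  -- product formula
  have hprod : n = (∏ p ∈ F, p ^ n.factorization p) * ∏ p ∈ G, p ^ n.factorization p := by
    conv_lhs => rw [← Nat.prod_factorization_pow_eq_self hn0]
    rw [Finsupp.prod, Nat.support_factorization, hF, hG, Finset.prod_filter_mul_prod_filter_not]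
  have hGker : ∏ p ∈ G, p ^ n.factorization p ≤ ker Q y := by
    have hGe : ∏ p ∈ G, p ^ n.factorization p = ∏ p ∈ G, p := by
      apply Finset.prod_congr rfl
      intro p hp
      rw [hG, Finset.mem_filter] at hp
      have h5 := hfac1 p hp.1
      have h6 : ¬ 2 ≤ n.factorization p := fun h => hp.2 (Or.inr h)
      have h7 : n.factorization p = 1 := by omega
      rw [h7, pow_one]
    rw [hGe]
    unfold ker
    apply Finset.prod_le_prod_of_subset_of_one_le'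
    · intro p hp
      rw [hG, Finset.mem_filter] at hp
      rw [Finset.mem_filter]
      exact ⟨hp.1, fun h => hp.2 (Or.inl h)⟩
    · intro p hp _
      exact (hprime p (Finset.mem_filter.1 hp).1).one_lt.le
  have hF1 : ∀ p ∈ F, (1 : ℝ) ≤ (p : ℝ) ^ n.factorization p ∧
      (p : ℝ) ^ n.factorization p ≤ T ^ (ε / 8) := by
    intro p hp
    rw [hF, Finset.mem_filter] at hp
    have hpp := hprime p hp.1
    have hp1 : (1 : ℝ) ≤ p := by exact_mod_cast hpp.one_lt.le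
    refine ⟨one_le_pow₀ hp1, ?_⟩
    have hpv : (p : ℤ) ^ n.factorization p ∣ y := by
      have := hdvd _ (Nat.ordProj_dvd n p)
      push_cast at this
      exact this
    by_contra hlt
    rw [not_le] at hlt
    by_cases hpQ : (p : ℤ) ∣ Q
    · exact h3 ⟨p, n.factorization p, hpp, hpQ, hfac1 p hp.1, hpv, hlt⟩
    · have hv2 : 2 ≤ n.factorization p := hp.2.resolve_left hpQ
      have hpbig : T ^ (1 - ε / 8) < (p : ℝ) := by
        by_contra hle
        exact h1 ⟨p, n.factorization p, hpp, hpQ, hv2, hpv, hlt, not_lt.1 hle⟩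
      have hple : p ≤ ker Q y := by
        unfold ker
        apply Finset.single_le_prod' (f := fun p : ℕ => p)
        · intro q hq
          exact (hprime q (Finset.mem_filter.1 hq).1).one_lt.le
        · rw [Finset.mem_filter]
          exact ⟨hp.1, hpQ⟩
      have hpR : (p : ℝ) ≤ (ker Q y : ℝ) := by exact_mod_cast hple
      have hmono : T ^ (1 - ε) ≤ T ^ (1 - ε / 8) :=
        Real.rpow_le_rpow_of_exponent_le hT (by linarith)
      linarith
  have hV : T ^ (ε / 2) < ∏ p ∈ F, (p : ℝ) ^ n.factorization p := by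
    have hnle : (n : ℝ) ≤ (∏ p ∈ F, (p : ℝ) ^ n.factorization p) * (ker Q y : ℝ) := by
      have h5 : n ≤ (∏ p ∈ F, p ^ n.factorization p) * ker Q y := by
        calc n = (∏ p ∈ F, p ^ n.factorization p) * ∏ p ∈ G, p ^ n.factorization p := hprod
          _ ≤ _ := Nat.mul_le_mul_left _ hGker
      have h6 : (n : ℝ) ≤ (((∏ p ∈ F, p ^ n.factorization p) * ker Q y : ℕ) : ℝ) := by
        exact_mod_cast h5
      push_cast at h6
      exact h6
    have hkpos : (0 : ℝ) < (ker Q y : ℝ) := by exact_mod_cast uni_ker_pos Q y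
    have hPpos : 0 < ∏ p ∈ F, (p : ℝ) ^ n.factorization p :=
      Finset.prod_pos fun p hp => lt_of_lt_of_le one_pos (hF1 p hp).1
    have h5 : T ^ (1 - ε / 8) < (∏ p ∈ F, (p : ℝ) ^ n.factorization p) * T ^ (1 - ε) := by
      calc T ^ (1 - ε / 8) < n := by rw [hnR]; exact hn
        _ ≤ (∏ p ∈ F, (p : ℝ) ^ n.factorization p) * (ker Q y : ℝ) := hnle
        _ ≤ (∏ p ∈ F, (p : ℝ) ^ n.factorization p) * T ^ (1 - ε) :=
            mul_le_mul_of_nonneg_left hker.le hPpos.le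
    have h6 : T ^ (1 - ε / 8) = T ^ (7 * ε / 8) * T ^ (1 - ε) := by
      rw [← Real.rpow_add hT0]
      congr 1
      ring
    rw [h6] at h5
    have h7 : T ^ (7 * ε / 8) < ∏ p ∈ F, (p : ℝ) ^ n.factorization p :=
      lt_of_mul_lt_mul_right h5 (Real.rpow_pos_of_pos hT0 _).le
    have h8 : T ^ (ε / 2) ≤ T ^ (7 * ε / 8) :=
      Real.rpow_le_rpow_of_exponent_le hT (by linarith)
    linarith
  obtain ⟨F', hF', hlo, hhi⟩ := greedy F (fun p => (p : ℝ) ^ n.factorization p) (T ^ (ε / 8))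
    (T ^ (ε / 2)) hF1 (Real.one_le_rpow hT (by linarith)) hV
  refine h4 ⟨∏ p ∈ F', p ^ n.factorization p, ⟨?_, ?_⟩, ?_, ?_, ?_⟩
  · rw [Finset.prod_ne_zero_iff]
    intro p hp
    have := hF' hp
    rw [hF, Finset.mem_filter] at this
    exact pow_ne_zero _ (hprime p this.1).ne_zero
  · intro p hp hpb hpQ
    obtain ⟨q, hq, hpq⟩ := (hp.prime.dvd_finsetProd_iff _).1 hpb
    have hqF := hF' hq
    rw [hF, Finset.mem_filter] at hqF
    have hqp := hprime q hqF.1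
    have hpqe : p = q := (Nat.prime_dvd_prime_iff_eq hp hqp).1 (hp.dvd_of_dvd_pow hpq)
    subst hpqe
    have hv2 : 2 ≤ n.factorization p := hqF.2.resolve_left hpQ
    exact (pow_dvd_pow p hv2).trans (Finset.dvd_prod_of_mem (fun p => p ^ n.factorization p) hq)
  · push_cast
    exact hlo.le
  · push_cast
    refine hhi.trans ?_
    rw [← Real.rpow_add hT0]
    calc T ^ (ε / 2 + ε / 8) ≤ T ^ (1 : ℝ) := Real.rpow_le_rpow_of_exponent_le hT (by linarith)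
      _ = T := Real.rpow_one T
  · apply hdvd
    have h9 : (∏ p ∈ F, p ^ n.factorization p) ∣ n := Dvd.intro _ hprod.symm
    exact (Finset.prod_dvd_prod_of_subset F' F (fun p => p ^ n.factorization p) hF').trans h9

theorem uni_prim (d : ℕ) (hd : 1 ≤ d) (ε B K : ℝ) (hε : 0 < ε) (hε1 : ε ≤ 1) (hB : 0 ≤ B) :
    ∃ A η : ℝ, 0 < η ∧ ∀ T : ℕ, 1 ≤ T → ∀ (P U V : ℤ[X]) (W Q : ℤ),
      P.IsPrimitive → 1 ≤ P.natDegree → P.natDegree ≤ d → U * P + V * derivative P = C W →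
      W ∣ Q → Q ≠ 0 → |(Q : ℝ)| ≤ K * (T : ℝ) ^ B →
      (((Finset.Icc (-(T : ℤ)) T).filter (fun x =>
        (ker Q (P.eval x) : ℝ) < (T : ℝ) ^ (1 - ε))).card : ℝ) ≤ A * (T : ℝ) ^ (1 - η) := by
  obtain ⟨A1, η1, hη1, hev1⟩ := ev1 d hd (ε / 8) (ε / 8) (by positivity) (by linarith)
    (by positivity) (by linarith)
  obtain ⟨A3, η3, hη3, hev3⟩ := ev3 d hd (ε / 8) B K (by positivity) (by linarith) hB
  obtain ⟨A4, η4, hη4, hev4⟩ := ev4 d hd (ε / 2) B K (by positivity) hB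
  set η : ℝ := min (ε / 8) (min η1 (min η3 η4)) with hη
  refine ⟨3 * d + |A1| + |A3| + |A4|, η, lt_min (by positivity) (lt_min hη1 (lt_min hη3 hη4)), ?_⟩
  intro T hT P U V W Q hP hP1 hPd hUV hWQ hQ hQK
  have hT1 : (1 : ℝ) ≤ (T : ℝ) := by exact_mod_cast hT
  have hT0 : (0 : ℝ) < (T : ℝ) := by linarith
  have hD0 : (0 : ℝ) < P.natDegree := by exact_mod_cast hP1
  set κ : ℝ := (T : ℝ) ^ ((1 - ε / 8) / P.natDegree) with hκ
  have hκ0 : 0 ≤ κ := by positivity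
  have hκD : κ ^ P.natDegree = (T : ℝ) ^ (1 - ε / 8) := by
    rw [hκ, ← Real.rpow_natCast, ← Real.rpow_mul hT0.le]
    congr 1
    field_simp
  have hlow := SzC2.low_count P hP.ne_zero κ hκ0 (Finset.Icc (-(T : ℤ)) T)
  have e1 := hev1 T hT P U V W Q hP hPd hUV hWQ
  have e3 := hev3 T hT P U V W Q hP hPd hUV hWQ hQ hQK
  have e4 := hev4 T hT P U V W Q hP hPd hUV hWQ hQ hQK
  have hsub : (Finset.Icc (-(T : ℤ)) T).filter (fun x =>
        (ker Q (P.eval x) : ℝ) < (T : ℝ) ^ (1 - ε)) ⊆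
      (((Finset.Icc (-(T : ℤ)) T).filter (fun y => |((P.eval y : ℤ) : ℝ)| ≤ κ ^ P.natDegree ∧
        1 ≤ P.natDegree)) ∪
      ((Finset.Icc (-(T : ℤ)) T).filter (fun x => ∃ p v : ℕ, p.Prime ∧ ¬ (p : ℤ) ∣ Q ∧ 2 ≤ v ∧
        (p : ℤ) ^ v ∣ P.eval x ∧ (T : ℝ) ^ (ε / 8) < (p : ℝ) ^ v ∧
        (p : ℝ) ≤ (T : ℝ) ^ (1 - ε / 8)))) ∪
      (((Finset.Icc (-(T : ℤ)) T).filter (fun x => ∃ p v : ℕ, p.Prime ∧ (p : ℤ) ∣ Q ∧ 1 ≤ v ∧
        (p : ℤ) ^ v ∣ P.eval x ∧ (T : ℝ) ^ (ε / 8) < (p : ℝ) ^ v)) ∪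
      ((Finset.Icc (-(T : ℤ)) T).filter (fun x => ∃ b : ℕ, Adm Q b ∧ (T : ℝ) ^ (ε / 2) ≤ b ∧
        b ≤ T ∧ (b : ℤ) ∣ P.eval x))) := by
    intro x hx
    rw [Finset.mem_filter] at hx
    obtain ⟨hxT, hxk⟩ := hx
    by_contra hno
    rw [Finset.mem_union, Finset.mem_union, Finset.mem_union, not_or, not_or, not_or] at hno
    obtain ⟨⟨n0, n1⟩, n3, n4⟩ := hno
    rw [Finset.mem_filter, not_and] at n0 n1 n3 n4
    have m0 : (T : ℝ) ^ (1 - ε / 8) < |((P.eval x : ℤ) : ℝ)| := by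
      by_contra h
      rw [not_lt] at h
      exact n0 hxT ⟨by rw [hκD]; exact h, hP1⟩
    have hc := uni_core (T : ℝ) hT1 ε hε hε1 Q (P.eval x) m0 (n1 hxT) (n3 hxT) ?_
    · linarith
    · rintro ⟨b, hb1, hb2, hb3, hb4⟩
      exact n4 hxT ⟨b, hb1, hb2, by exact_mod_cast hb3, hb4⟩
  have hcard := (Finset.card_le_card hsub).trans (Finset.card_union_le _ _)
  have hcard2 := Finset.card_union_le
    ((Finset.Icc (-(T : ℤ)) T).filter (fun y => |((P.eval y : ℤ) : ℝ)| ≤ κ ^ P.natDegree ∧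
        1 ≤ P.natDegree))
    ((Finset.Icc (-(T : ℤ)) T).filter (fun x => ∃ p v : ℕ, p.Prime ∧ ¬ (p : ℤ) ∣ Q ∧ 2 ≤ v ∧
        (p : ℤ) ^ v ∣ P.eval x ∧ (T : ℝ) ^ (ε / 8) < (p : ℝ) ^ v ∧
        (p : ℝ) ≤ (T : ℝ) ^ (1 - ε / 8)))
  have hcard3 := Finset.card_union_le
    ((Finset.Icc (-(T : ℤ)) T).filter (fun x => ∃ p v : ℕ, p.Prime ∧ (p : ℤ) ∣ Q ∧ 1 ≤ v ∧
        (p : ℤ) ^ v ∣ P.eval x ∧ (T : ℝ) ^ (ε / 8) < (p : ℝ) ^ v))
    ((Finset.Icc (-(T : ℤ)) T).filter (fun x => ∃ b : ℕ, Adm Q b ∧ (T : ℝ) ^ (ε / 2) ≤ b ∧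
        b ≤ T ∧ (b : ℤ) ∣ P.eval x))
  have hall := hcard.trans (Nat.add_le_add hcard2 hcard3)
  have hallR := (Nat.cast_le (α := ℝ)).2 hall
  push_cast at hallR
  have hmono : ∀ e : ℝ, η ≤ e → (T : ℝ) ^ (1 - e) ≤ (T : ℝ) ^ (1 - η) := fun e he =>
    Real.rpow_le_rpow_of_exponent_le hT1 (by linarith)
  have hpos : 0 ≤ (T : ℝ) ^ (1 - η) := by positivity
  have hb0 : (P.natDegree : ℝ) * (2 * κ + 1) ≤ 3 * d * (T : ℝ) ^ (1 - η) := by
    have hκ1 : κ ≤ (T : ℝ) ^ (1 - ε / 8) := by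
      rw [hκ]
      apply Real.rpow_le_rpow_of_exponent_le hT1
      apply div_le_self (by linarith)
      exact_mod_cast hP1
    have h1T : (1 : ℝ) ≤ (T : ℝ) ^ (1 - ε / 8) := Real.one_le_rpow hT1 (by linarith)
    have hm := hmono (ε / 8) (min_le_left _ _)
    have hDd : (P.natDegree : ℝ) ≤ d := by exact_mod_cast hPd
    calc (P.natDegree : ℝ) * (2 * κ + 1) ≤ d * (3 * (T : ℝ) ^ (1 - η)) :=
          mul_le_mul hDd (by linarith) (by linarith) (by positivity)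
      _ = 3 * d * (T : ℝ) ^ (1 - η) := by ring
  have hb : ∀ (A' e : ℝ), η ≤ e → A' * (T : ℝ) ^ (1 - e) ≤ |A'| * (T : ℝ) ^ (1 - η) := by
    intro A' e he
    calc A' * (T : ℝ) ^ (1 - e) ≤ |A'| * (T : ℝ) ^ (1 - e) :=
          mul_le_mul_of_nonneg_right (le_abs_self _) (by positivity)
      _ ≤ |A'| * (T : ℝ) ^ (1 - η) := mul_le_mul_of_nonneg_left (hmono e he) (abs_nonneg _)
  have hb1 := hb A1 η1 ((min_le_right _ _).trans (min_le_left _ _))
  have hb3 := hb A3 η3 ((min_le_right _ _).trans ((min_le_right _ _).trans (min_le_left _ _)))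
  have hb4 := hb A4 η4 ((min_le_right _ _).trans ((min_le_right _ _).trans (min_le_right _ _)))
  refine hallR.trans ?_
  have hfin : (3 * (d : ℝ) + |A1| + |A3| + |A4|) * (T : ℝ) ^ (1 - η) =
      (3 * d * (T : ℝ) ^ (1 - η) + |A1| * (T : ℝ) ^ (1 - η)) +
        (|A3| * (T : ℝ) ^ (1 - η) + |A4| * (T : ℝ) ^ (1 - η)) := by ring
  rw [hfin]
  exact add_le_add (add_le_add (hlow.trans hb0) (e1.trans hb1))
    (add_le_add (e3.trans hb3) (e4.trans hb4))

theorem uni (d : ℕ) (hd : 1 ≤ d) (ε B K : ℝ) (hε : 0 < ε) (hε1 : ε ≤ 1) (hB : 0 ≤ B) :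
    ∃ A η : ℝ, 0 < η ∧ ∀ T : ℕ, 1 ≤ T → ∀ (P U V : ℤ[X]) (W Q : ℤ),
      1 ≤ P.natDegree → P.natDegree ≤ d → U * P + V * derivative P = C W →
      W ∣ Q → Q ≠ 0 → |(Q : ℝ)| ≤ K * (T : ℝ) ^ B →
      (((Finset.Icc (-(T : ℤ)) T).filter (fun x =>
        (ker Q (P.eval x) : ℝ) < (T : ℝ) ^ (1 - ε))).card : ℝ) ≤ A * (T : ℝ) ^ (1 - η) := by
  obtain ⟨A, η, hη, h⟩ := uni_prim d hd ε B K hε hε1 hB
  refine ⟨A, η, hη, ?_⟩
  intro T hT P U V W Q hP1 hPd hUV hWQ hQ hQK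
  have hP0 : P ≠ 0 := by
    rintro rfl
    simp at hP1
  have hc0 : P.content ≠ 0 := by
    rw [Ne, Polynomial.content_eq_zero_iff]
    exact hP0
  have hdec := P.eq_C_content_mul_primPart
  have hUV' : (U * C P.content) * P.primPart + (V * C P.content) * derivative P.primPart = C W := by
    rw [← hUV]
    conv_rhs => rw [hdec, derivative_C_mul]
    ring
  have h1 := h T hT P.primPart (U * C P.content) (V * C P.content) W Q P.isPrimitive_primPart
    (by rw [natDegree_primPart]; exact hP1) (by rw [natDegree_primPart]; exact hPd) hUV' hWQ hQ hQK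
  refine le_trans ?_ h1
  have hsub : (Finset.Icc (-(T : ℤ)) T).filter (fun x =>
        (ker Q (P.eval x) : ℝ) < (T : ℝ) ^ (1 - ε)) ⊆
      (Finset.Icc (-(T : ℤ)) T).filter (fun x =>
        (ker Q (P.primPart.eval x) : ℝ) < (T : ℝ) ^ (1 - ε)) := by
    intro x hx
    rw [Finset.mem_filter] at hx ⊢
    refine ⟨hx.1, lt_of_le_of_lt ?_ hx.2⟩
    have hev : P.eval x = P.content * P.primPart.eval x := by
      conv_lhs => rw [hdec]
      rw [eval_mul, eval_C]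
    rw [hev]
    have hle : ker Q (P.primPart.eval x) ≤ ker Q (P.content * P.primPart.eval x) := by
      by_cases hx0 : P.primPart.eval x = 0
      · rw [hx0, mul_zero]
      · unfold ker
        apply Finset.prod_le_prod_of_subset_of_one_le'
        · apply Finset.filter_subset_filter
          apply Nat.primeFactors_mono
          · exact Int.natAbs_dvd_natAbs.2 (Dvd.intro_left _ rfl)
          · exact Int.natAbs_ne_zero.2 (mul_ne_zero hc0 hx0)
        · intro p hp _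
          exact (Nat.prime_of_mem_primeFactors (Finset.mem_filter.1 hp).1).one_lt.le
    exact_mod_cast hle
  exact_mod_cast Finset.card_le_card hsub

end SzFM
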