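import Pool.Agent.SzFM.Bez
import Pool.Agent.SzFM.Uni
import Pool.Agent.SzFM.Sz

/-!
Values of a polynomial in several variables have a large squarefree kernel (one variable of positive
degree).
-/

open scoped Classical

namespace SzFM

open MvPolynomial

theorem ker_le_ker {Q Q' x : ℤ} (h : ∀ p : ℕ, p.Prime → (p : ℤ) ∣ x → ¬ (p : ℤ) ∣ Q → ¬ (p : ℤ) ∣ Q') :
    ker Q x ≤ ker Q' x := by
  unfold ker
  apply Finset.prod_le_prod_of_subset_of_one_le'
  · intro p hp
    rw [Finset.mem_filter] at hp ⊢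
    refine ⟨hp.1, ?_⟩
    apply h p (Nat.prime_of_mem_primeFactors hp.1) _ hp.2
    exact Int.natCast_dvd.2 (Nat.dvd_of_mem_primeFactors hp.1)
  · intro p hp _
    rw [Finset.mem_filter] at hp
    exact (Nat.prime_of_mem_primeFactors hp.1).one_le

theorem tail_mem_cube {n T : ℕ} {t : Fin (n + 1) → ℤ} (ht : t ∈ cube (n + 1) T) :
    Fin.tail t ∈ cube n T := by
  unfold cube at *
  rw [Fintype.mem_piFinset] at *
  intro i
  exact ht i.succ

theorem card_cube (n T : ℕ) : (cube n T).card = (2 * T + 1) ^ n := by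
  unfold cube
  rw [Fintype.card_piFinset]
  simp only [Int.card_Icc, Finset.prod_const, Finset.card_univ, Fintype.card_fin]
  congr 1
  omega

/-- counting by fibres over the last coordinates -/
theorem card_fibres {n : ℕ} (S : Finset (Fin (n + 1) → ℤ))
    (X : (Fin n → ℤ) → Finset ℤ) (G : Finset (Fin n → ℤ))
    (h : ∀ t ∈ S, Fin.tail t ∈ G ∧ t 0 ∈ X (Fin.tail t)) :
    S.card ≤ ∑ u ∈ G, (X u).card := by
  have h1 : S.card = ∑ u ∈ G, (S.filter (fun t => Fin.tail t = u)).card :=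
    Finset.card_eq_sum_card_fiberwise (fun t ht => (h t ht).1)
  rw [h1]
  apply Finset.sum_le_sum
  intro u hu
  apply Finset.card_le_card_of_injOn (fun t => t 0)
  · intro t ht
    have ht' := Finset.mem_filter.1 (Finset.mem_coe.1 ht)
    have := (h t ht'.1).2
    rw [ht'.2] at this
    exact this
  · intro t ht t' ht' he
    have h1 := (Finset.mem_filter.1 (Finset.mem_coe.1 ht)).2
    have h2 := (Finset.mem_filter.1 (Finset.mem_coe.1 ht')).2
    rw [← Fin.cons_self_tail t, ← Fin.cons_self_tail t', h1, h2]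
    simp only at he
    rw [he]

theorem fib (n : ℕ) (P J : MvPolynomial (Fin (n + 1)) ℤ) (hP : Irreducible P)
    (h0 : 0 < P.degreeOf 0) (hJ : ¬ P ∣ J) (M : ℤ) (hM : M ≠ 0) (ε : ℝ) (hε : 0 < ε)
    (hε1 : ε ≤ 1) : ∃ A η : ℝ, 0 < η ∧ ∀ T : ℕ, 1 ≤ T →
      (((cube (n + 1) T).filter (fun t =>
        (ker (M * eval t J) (eval t P) : ℝ) < (T : ℝ) ^ (1 - ε) ∨ eval t J = 0)).card : ℝ) ≤
        A * (T : ℝ) ^ ((n : ℝ) + 1 - η) := by
  obtain ⟨W, hW0, hW⟩ := bez n P J hP h0 hJ
  have hJ0 : J ≠ 0 := by rintro rfl; exact hJ (dvd_zero _)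
  obtain ⟨A2, hA2, hz2⟩ := cube_zero n W hW0
  obtain ⟨A3, hA3, hz3⟩ := cube_zero (n + 1) J hJ0
  obtain ⟨K, hK⟩ := cube_growth n W.totalDegree W le_rfl
  obtain ⟨A1, η1, hη1, huni⟩ := uni (P.degreeOf 0) h0 ε (W.totalDegree : ℝ)
    (|(M : ℝ)| * K) hε hε1 (by positivity)
  refine ⟨3 * A2 + A3 + 3 ^ n * max A1 0, min η1 1, lt_min hη1 one_pos, fun T hT => ?_⟩
  have hT1 : (1 : ℝ) ≤ T := by exact_mod_cast hT
  have hT0 : (0 : ℝ) < T := by linarith
  set S1 := (cube (n + 1) T).filter (fun t => eval (Fin.tail t) W = 0) with hS1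
  set S2 := (cube (n + 1) T).filter (fun t => eval t J = 0) with hS2
  set X : (Fin n → ℤ) → Finset ℤ := fun u => (Finset.Icc (-(T : ℤ)) T).filter (fun x =>
    (ker (M * eval u W) (((finSuccEquiv ℤ n P).map (eval u)).eval x) : ℝ) < (T : ℝ) ^ (1 - ε))
    with hX
  set S3 := (cube (n + 1) T).filter (fun t : Fin (n + 1) → ℤ =>
      eval (Fin.tail t) W ≠ 0 ∧ t 0 ∈ X (Fin.tail t))
    with hS3
  have hmem0 : ∀ t : Fin (n + 1) → ℤ, t ∈ cube (n + 1) T → t 0 ∈ Finset.Icc (-(T : ℤ)) T := by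
    intro t ht
    unfold cube at ht
    rw [Fintype.mem_piFinset] at ht
    exact ht 0
  have hev : ∀ (R : MvPolynomial (Fin (n + 1)) ℤ) (t : Fin (n + 1) → ℤ),
      eval t R = ((finSuccEquiv ℤ n R).map (eval (Fin.tail t))).eval (t 0) := by
    intro R t
    conv_lhs => rw [← Fin.cons_self_tail t]
    rw [eval_eq_eval_mv_eval']
  have hsub : (cube (n + 1) T).filter (fun t =>
      (ker (M * eval t J) (eval t P) : ℝ) < (T : ℝ) ^ (1 - ε) ∨ eval t J = 0) ⊆
      S1 ∪ (S2 ∪ S3) := by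
    intro t ht
    rw [Finset.mem_filter] at ht
    obtain ⟨htc, ht⟩ := ht
    by_cases hw : eval (Fin.tail t) W = 0
    · exact Finset.mem_union_left _ (Finset.mem_filter.2 ⟨htc, hw⟩)
    · apply Finset.mem_union_right
      rcases ht with ht | ht
      · apply Finset.mem_union_right
        refine Finset.mem_filter.2 ⟨htc, hw, ?_⟩
        rw [hX, Finset.mem_filter]
        refine ⟨hmem0 t htc, ?_⟩
        refine lt_of_le_of_lt ?_ ht
        rw [← hev P t]
        norm_cast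
        apply ker_le_ker
        intro p hp hpP hpQ hpJ
        obtain ⟨_, _, U, V, hUV⟩ := hW (Fin.tail t) hw
        have h2 := congrArg (Polynomial.eval (t 0)) hUV
        rw [Polynomial.eval_add, Polynomial.eval_mul, Polynomial.eval_mul, Polynomial.eval_C,
          ← hev P t, ← hev J t] at h2
        have hpp : Prime (p : ℤ) := Nat.prime_iff_prime_int.1 hp
        rcases hpp.dvd_or_dvd hpJ with h | h
        · exact hpQ (Dvd.dvd.mul_right h _)
        · apply hpQ
          apply Dvd.dvd.mul_left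
          rw [← h2]
          exact dvd_add (Dvd.dvd.mul_left hpP _) (Dvd.dvd.mul_left h _)
      · exact Finset.mem_union_left _ (Finset.mem_filter.2 ⟨htc, ht⟩)
  have h2T : ((2 * T + 1 : ℕ) : ℝ) ≤ 3 * T := by push_cast; linarith
  have hpow : (T : ℝ) ^ (n : ℝ) ≤ (T : ℝ) ^ ((n : ℝ) + 1 - min η1 1) := by
    apply Real.rpow_le_rpow_of_exponent_le hT1
    have := min_le_right η1 1
    linarith
  have c1 : (S1.card : ℝ) ≤ 3 * A2 * (T : ℝ) ^ ((n : ℝ) + 1 - min η1 1) := by
    have h1 := card_fibres S1 (fun _ => Finset.Icc (-(T : ℤ)) T)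
      ((cube n T).filter (fun u => eval u W = 0)) (by
        intro t ht
        rw [hS1, Finset.mem_filter] at ht
        exact ⟨Finset.mem_filter.2 ⟨tail_mem_cube ht.1, ht.2⟩, hmem0 t ht.1⟩)
    have h2 : (Finset.Icc (-(T : ℤ)) T).card = 2 * T + 1 := by
      rw [Int.card_Icc]; omega
    rw [Finset.sum_const, h2, smul_eq_mul] at h1
    have h3 : (S1.card : ℝ) ≤ (((cube n T).filter (fun u => eval u W = 0)).card : ℝ) *
        ((2 * T + 1 : ℕ) : ℝ) := by exact_mod_cast h1
    calc (S1.card : ℝ) ≤ _ := h3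
      _ ≤ (A2 * (T : ℝ) ^ ((n : ℝ) - 1)) * (3 * T) := by
          apply mul_le_mul (hz2 T hT) h2T (by positivity) (by positivity)
      _ = 3 * A2 * (T : ℝ) ^ (n : ℝ) := by
          have : (T : ℝ) ^ (n : ℝ) = (T : ℝ) ^ ((n : ℝ) - 1) * T := by
            rw [← Real.rpow_add_one hT0.ne']; congr 1; ring
          rw [this]; ring
      _ ≤ _ := by gcongr
  have c2 : (S2.card : ℝ) ≤ A3 * (T : ℝ) ^ ((n : ℝ) + 1 - min η1 1) := by
    refine (hz3 T hT).trans ?_
    have e : (((n + 1 : ℕ) : ℝ) - 1) = n := by push_cast; ring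
    rw [e]
    gcongr
  have c3 : (S3.card : ℝ) ≤ 3 ^ n * max A1 0 * (T : ℝ) ^ ((n : ℝ) + 1 - min η1 1) := by
    have h1 := card_fibres S3 X
      ((cube n T).filter (fun u => eval u W ≠ 0)) (by
        intro t ht
        rw [hS3, Finset.mem_filter] at ht
        exact ⟨Finset.mem_filter.2 ⟨tail_mem_cube ht.1, ht.2.1⟩, ht.2.2⟩)
    have h3 : (S3.card : ℝ) ≤ ∑ u ∈ (cube n T).filter (fun u => eval u W ≠ 0),
        ((X u).card : ℝ) := by exact_mod_cast h1
    have h4 : ∀ u ∈ (cube n T).filter (fun u => eval u W ≠ 0),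
        ((X u).card : ℝ) ≤ max A1 0 * (T : ℝ) ^ (1 - η1) := by
      intro u hu
      rw [Finset.mem_filter] at hu
      obtain ⟨hd, ⟨U, V, hUV⟩, _⟩ := hW u hu.2
      have hdeg : ((finSuccEquiv ℤ n P).map (eval u)).natDegree ≤ P.degreeOf 0 := by
        refine (Polynomial.natDegree_map_le).trans ?_
        rw [natDegree_finSuccEquiv]
      have hQ : M * eval u W ≠ 0 := mul_ne_zero hM hu.2
      have hb := hK T hT u hu.1
      have hb' : |((M * eval u W : ℤ) : ℝ)| ≤ |(M : ℝ)| * K * (T : ℝ) ^ (W.totalDegree : ℝ) := by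
        rw [Int.cast_mul, abs_mul, mul_assoc, Real.rpow_natCast]
        apply mul_le_mul_of_nonneg_left _ (abs_nonneg _)
        have : ((|eval u W| : ℤ) : ℝ) ≤ (((K : ℤ) * (T : ℤ) ^ W.totalDegree : ℤ) : ℝ) := by
          exact_mod_cast hb
        push_cast at this
        exact this
      have := huni T hT ((finSuccEquiv ℤ n P).map (eval u)) U V (eval u W) (M * eval u W) hd hdeg
        hUV (Dvd.intro_left M rfl) hQ hb'
      refine this.trans ?_
      gcongr
      exact le_max_left _ _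
    calc (S3.card : ℝ) ≤ _ := h3
      _ ≤ ∑ u ∈ (cube n T).filter (fun u => eval u W ≠ 0), max A1 0 * (T : ℝ) ^ (1 - η1) :=
          Finset.sum_le_sum h4
      _ = (((cube n T).filter (fun u => eval u W ≠ 0)).card : ℝ) *
          (max A1 0 * (T : ℝ) ^ (1 - η1)) := by rw [Finset.sum_const, nsmul_eq_mul]
      _ ≤ (3 * T) ^ n * (max A1 0 * (T : ℝ) ^ (1 - η1)) := by
          gcongr
          calc (((cube n T).filter (fun u => eval u W ≠ 0)).card : ℝ) ≤ ((cube n T).card : ℝ) := by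
                exact_mod_cast Finset.card_filter_le _ _
            _ = ((2 * T + 1 : ℕ) : ℝ) ^ n := by rw [card_cube]; push_cast; ring
            _ ≤ (3 * T) ^ n := by gcongr
      _ = 3 ^ n * max A1 0 * (T : ℝ) ^ ((n : ℝ) + 1 - η1) := by
          have : (T : ℝ) ^ ((n : ℝ) + 1 - η1) = (T : ℝ) ^ n * (T : ℝ) ^ (1 - η1) := by
            rw [← Real.rpow_natCast, ← Real.rpow_add hT0]; congr 1; ring
          rw [this, mul_pow]; ring
      _ ≤ _ := by
          gcongr
          exact min_le_left _ _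
  have hcard : (((cube (n + 1) T).filter (fun t =>
      (ker (M * eval t J) (eval t P) : ℝ) < (T : ℝ) ^ (1 - ε) ∨ eval t J = 0)).card : ℝ) ≤
      S1.card + (S2.card + S3.card) := by
    have h1 := Finset.card_le_card hsub
    have h2 := Finset.card_union_le S1 (S2 ∪ S3)
    have h3 := Finset.card_union_le S2 S3
    exact_mod_cast h1.trans (h2.trans (by omega))
  calc _ ≤ (S1.card : ℝ) + (S2.card + S3.card) := hcard
    _ ≤ 3 * A2 * (T : ℝ) ^ ((n : ℝ) + 1 - min η1 1) + (A3 * (T : ℝ) ^ ((n : ℝ) + 1 - min η1 1) +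
        3 ^ n * max A1 0 * (T : ℝ) ^ ((n : ℝ) + 1 - min η1 1)) := add_le_add c1 (add_le_add c2 c3)
    _ = _ := by ring

end SzFM
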