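import Pool.Agent.SzFM.Bez
import Pool.Agent.SzFM.Uni
import Pool.Agent.SzFM.Sz
import Pool.Agent.SzFM.FibA

/-!
Values of a polynomial in several variables have a large squarefree kernel.
-/

open scoped Classical

namespace SzFM

open MvPolynomial

theorem fib_gen (r : ℕ) (P J : MvPolynomial (Fin r) ℤ) (hP : Irreducible P)
    (h0 : 0 < P.totalDegree) (hJ : ¬ P ∣ J) (M : ℤ) (hM : M ≠ 0) (ε : ℝ) (hε : 0 < ε)
    (hε1 : ε ≤ 1) : ∃ A η : ℝ, 0 < η ∧ ∀ T : ℕ, 1 ≤ T →
      (((cube r T).filter (fun t =>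
        (ker (M * eval t J) (eval t P) : ℝ) < (T : ℝ) ^ (1 - ε) ∨ eval t J = 0)).card : ℝ) ≤
        A * (T : ℝ) ^ ((r : ℝ) - η) := by
  have hr : ∃ j : Fin r, 0 < P.degreeOf j := by
    have h1 : P.totalDegree ≠ 0 := h0.ne'
    rw [Ne, totalDegree_eq_zero_iff] at h1
    push Not at h1
    obtain ⟨m, hm, j, hj⟩ := h1
    exact ⟨j, (Nat.pos_of_ne_zero hj).trans_le (monomial_le_degreeOf j hm)⟩
  obtain ⟨j, hj⟩ := hr
  obtain ⟨n, rfl⟩ : ∃ n, r = n + 1 := ⟨r - 1, by have := j.2; omega⟩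
  obtain ⟨σ, hσ⟩ : ∃ σ : Equiv.Perm (Fin (n + 1)), σ = Equiv.swap 0 j := ⟨_, rfl⟩
  have hσσ : ∀ i, σ (σ i) = i := by
    intro i
    rw [hσ]
    exact Equiv.swap_apply_self 0 j i
  have hσj : σ j = 0 := by
    rw [hσ]
    exact Equiv.swap_apply_right 0 j
  have hP' : Irreducible (rename σ P) :=
    (MulEquiv.irreducible_iff (renameEquiv ℤ σ)).2 hP
  have hJ' : ¬ rename σ P ∣ rename σ J := by
    intro h
    exact hJ ((map_dvd_iff (renameEquiv ℤ σ)).1 h)
  have h0' : 0 < (rename σ P).degreeOf 0 := by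
    have h1 := degreeOf_rename_of_injective (p := P) σ.injective j
    rw [hσj] at h1
    rw [h1]
    exact hj
  obtain ⟨A, η, hη, hA⟩ := fib n (rename σ P) (rename σ J) hP' h0' hJ' M hM ε hε hε1
  refine ⟨A, η, hη, fun T hT => ?_⟩
  have h1 := hA T hT
  have h2 : ((cube (n + 1) T).filter (fun t =>
      (ker (M * eval t J) (eval t P) : ℝ) < (T : ℝ) ^ (1 - ε) ∨ eval t J = 0)).card =
      ((cube (n + 1) T).filter (fun t => (ker (M * eval t (rename σ J)) (eval t (rename σ P)) : ℝ)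
        < (T : ℝ) ^ (1 - ε) ∨ eval t (rename σ J) = 0)).card := by
    have hcube : ∀ t : Fin (n + 1) → ℤ, t ∈ cube (n + 1) T → t ∘ σ ∈ cube (n + 1) T := by
      intro t ht
      unfold cube at ht ⊢
      rw [Fintype.mem_piFinset] at ht ⊢
      exact fun i => ht (σ i)
    have hinv : ∀ t : Fin (n + 1) → ℤ, (t ∘ σ) ∘ σ = t := by
      intro t
      funext i
      simp only [Function.comp_apply, hσσ]
    refine Finset.card_nbij' (fun t => t ∘ σ) (fun t => t ∘ σ) (fun t ht => ?_) (fun t ht => ?_)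
      (fun t _ => hinv t) (fun t _ => hinv t)
    · rw [Finset.mem_coe, Finset.mem_filter] at ht ⊢
      refine ⟨hcube t ht.1, ?_⟩
      rw [eval_rename, eval_rename, hinv]
      exact ht.2
    · rw [Finset.mem_coe, Finset.mem_filter] at ht ⊢
      refine ⟨hcube t ht.1, ?_⟩
      have h3 := ht.2
      rw [eval_rename, eval_rename] at h3
      exact h3
  rw [h2]
  push_cast
  exact h1

end SzFM
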