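import Mathlib

/-!
A nonconstant prime factor with prescribed inequality between the multiplicities.
-/

namespace SzFM

open MvPolynomial

/-- Splitting off the constant factors. -/
theorem Fac_split (r : ℕ) (D : MvPolynomial (Fin r) ℤ) (hD : D ≠ 0) :
    ∃ (c0 : ℤ) (D1 : MvPolynomial (Fin r) ℤ), c0 ≠ 0 ∧ D = C c0 * D1 ∧
      ∀ P : MvPolynomial (Fin r) ℤ, Prime P → P.totalDegree = 0 → ¬ P ∣ D1 := by
  revert hD
  refine UniqueFactorizationMonoid.induction_on_prime D ?_ ?_ ?_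
  · intro h
    exact absurd rfl h
  · intro u hu _
    exact ⟨1, u, one_ne_zero, by simp, fun P hP _ hd => hP.not_isUnit (isUnit_of_dvd_unit hd hu)⟩
  · intro a p ha hp ih _
    obtain ⟨c0, D1, hc0, hDe, h1⟩ := ih ha
    by_cases hdeg : p.totalDegree = 0
    · have hpC := totalDegree_eq_zero_iff_eq_C.1 hdeg
      refine ⟨coeff 0 p * c0, D1, mul_ne_zero ?_ hc0, ?_, h1⟩
      · intro h
        apply hp.ne_zero
        rw [hpC, h, C_0]
      · rw [C_mul, mul_assoc, ← hpC, hDe]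
    · refine ⟨c0, p * D1, hc0, by rw [hDe]; ring, ?_⟩
      intro P hP hP0 hd
      rcases hP.dvd_or_dvd hd with h2 | h2
      · have h3 : Associated P p := (hP.dvd_prime_iff_associated hp).1 h2
        have h4 := totalDegree_le_of_dvd_of_isDomain h3.symm.dvd hP.ne_zero
        omega
      · exact h1 P hP hP0 h2

theorem Fac_em {R : Type*} [CommRing R] [IsDomain R] {p b : R} (hp : Prime p)
    (hb : ¬ p ∣ b) (d : ℕ) : emultiplicity p (p ^ d * b) = d := by
  rw [emultiplicity_mul hp, emultiplicity_pow_self_of_prime hp, emultiplicity_eq_zero.2 hb,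
    add_zero]

theorem exists_prime (r : ℕ) (D J : MvPolynomial (Fin r) ℤ) (hD : D ≠ 0) (e k : ℕ)
    (hk : 1 ≤ k) (h : ∀ c : ℤ, c ≠ 0 → ¬ D ^ e ∣ C c * J ^ k) :
    ∃ (P D' J' : MvPolynomial (Fin r) ℤ) (d i : ℕ), Irreducible P ∧ 0 < P.totalDegree ∧
      D = P ^ d * D' ∧ J = P ^ i * J' ∧ ¬ P ∣ J' ∧ k * i < e * d := by
  by_contra hcon
  push Not at hcon
  obtain ⟨c0, D1, hc0, hDe, h1⟩ := Fac_split r D hD
  have hJ : J ≠ 0 := by
    rintro rfl
    apply h 1 one_ne_zero
    rw [zero_pow (by omega), mul_zero]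
    exact dvd_zero _
  apply h (c0 ^ e) (pow_ne_zero _ hc0)
  have hD1 : D1 ≠ 0 := by
    rintro rfl
    apply hD
    rw [hDe, mul_zero]
  have h2 : D1 ^ e ∣ J ^ k := by
    rw [UniqueFactorizationMonoid.dvd_iff_emultiplicity_le (pow_ne_zero _ hD1)]
    intro p hp
    rw [emultiplicity_pow hp, emultiplicity_pow hp]
    by_cases hdeg : p.totalDegree = 0
    · rw [emultiplicity_eq_zero.2 (h1 p hp hdeg), mul_zero]
      exact zero_le
    · obtain ⟨d, D', hD', hDd⟩ := WfDvdMonoid.max_power_factor hD hp.irreducible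
      obtain ⟨i, J', hJ', hJi⟩ := WfDvdMonoid.max_power_factor hJ hp.irreducible
      have h3 := hcon p D' J' d i hp.irreducible (Nat.pos_of_ne_zero hdeg) hDd hJi hJ'
      have h4 : emultiplicity p D1 ≤ d := by
        rw [← Fac_em hp hD' d, ← hDd]
        exact emultiplicity_le_emultiplicity_of_dvd_right ⟨C c0, by rw [hDe]; ring⟩
      have h5 : emultiplicity p J = i := by
        rw [hJi]
        exact Fac_em hp hJ' i
      rw [h5]
      calc (e : ℕ∞) * emultiplicity p D1 ≤ (e : ℕ∞) * d := mul_le_mul_right h4 _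
        _ = ((e * d : ℕ) : ℕ∞) := by push_cast; rfl
        _ ≤ ((k * i : ℕ) : ℕ∞) := by exact_mod_cast h3
        _ = (k : ℕ∞) * i := by push_cast; rfl
  rw [hDe, mul_pow, C_pow]
  exact mul_dvd_mul_left _ h2

end SzFM
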