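import Pool.Agent.SzFM.Key
import Pool.Agent.SzFM.Fac
import Pool.Agent.SzFM.Fib
import Pool.Agent.SzBF.Main
import Pool.Agent.SzBF.DiscL

/-!
Assembly.
-/

open Polynomial
open scoped Classical

namespace SzFM

theorem genus_two {m N : ℕ} (hg : 2 ≤ SzBF.genus m N) : 2 ≤ m ∧ 3 ≤ N := by
  unfold SzBF.genus at hg
  have h4 : 4 ≤ (m - 1) * (N - 2) := by omega
  constructor
  · by_contra h
    have h1 : m - 1 = 0 := by omega
    rw [h1, zero_mul] at h4
    omega
  · by_contra h
    have h1 : N - 2 = 0 := by omega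
    rw [h1, mul_zero] at h4
    omega

theorem smallPoint_mono {m N : ℕ} {f : ℤ[X]} {B B' : ℝ} (h : SzBF.SmallPoint m N f B)
    (hB : B ≤ B') : SzBF.SmallPoint m N f B' := by
  obtain ⟨h1, h2, h3, h4⟩ := h
  refine ⟨h1, h2, h3, fun e he => ?_⟩
  obtain ⟨g, hg1, hg2, hg3⟩ := h4 e he
  refine ⟨g, hg1, hg2, hg3.trans ?_⟩
  exact_mod_cast mul_le_mul_of_nonneg_left hB (Nat.cast_nonneg _)

theorem form_coeff {R : Type*} [CommRing R] (N : ℕ) (b : Fin (N + 1) → R) (k : ℕ) :
    (SzBF.form N b).coeff k = if h : k < N + 1 then b ⟨k, h⟩ else 0 := by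
  unfold SzBF.form
  rw [finsetSum_coeff]
  simp only [coeff_C_mul, coeff_X_pow]
  split_ifs with h
  · rw [Finset.sum_eq_single (⟨k, h⟩ : Fin (N + 1))]
    · simp
    · intro i _ hi
      have : k ≠ (i : ℕ) := fun h' => hi (Fin.ext h'.symm)
      simp [this]
    · intro h'
      exact absurd (Finset.mem_univ _) h'
  · apply Finset.sum_eq_zero
    intro i _
    have : k ≠ (i : ℕ) := by omega
    simp [this]

theorem form_natDegree {R : Type*} [CommRing R] (N : ℕ) (b : Fin (N + 1) → R)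
    (hb : b (Fin.last N) ≠ 0) : (SzBF.form N b).natDegree = N := by
  apply natDegree_eq_of_le_of_coeff_ne_zero
  · rw [natDegree_le_iff_coeff_eq_zero]
    intro k hk
    rw [form_coeff, dif_neg (by omega)]
  · rw [form_coeff, dif_pos (by omega)]
    exact hb

theorem form_lead {R : Type*} [CommRing R] (N : ℕ) (b : Fin (N + 1) → R)
    (hb : b (Fin.last N) ≠ 0) : (SzBF.form N b).leadingCoeff = b (Fin.last N) := by
  rw [leadingCoeff, form_natDegree N b hb, form_coeff, dif_pos (by omega)]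
  rfl

theorem form_map {R S : Type*} [CommRing R] [CommRing S] (φ : R →+* S) (N : ℕ)
    (b : Fin (N + 1) → R) : (SzBF.form N b).map φ = SzBF.form N (fun i => φ (b i)) := by
  unfold SzBF.form
  rw [Polynomial.map_sum]
  simp

theorem discr_spec {r N : ℕ} (a : Fin (N + 1) → MvPolynomial (Fin r) ℤ)
    (haN : a (Fin.last N) ≠ 0) (t : Fin r → ℤ) (ht : MvPolynomial.eval t (a (Fin.last N)) ≠ 0) :
    (SzBF.form N (fun i => MvPolynomial.eval t (a i))).discr =
      MvPolynomial.eval t (SzBF.form N a).discr := by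
  rw [← form_map (MvPolynomial.eval t) N a]
  apply SzBF.discr_map_of_ne
  rw [form_lead N a haN]
  exact ht

theorem eval_inv {r N : ℕ} (a : Fin (N + 1) → MvPolynomial (Fin r) ℤ)
    (I : MvPolynomial (Fin (N + 1)) ℤ) (t : Fin r → ℤ) :
    MvPolynomial.eval (fun i => MvPolynomial.eval t (a i)) I =
      MvPolynomial.eval t (MvPolynomial.aeval a I) := by
  have h := MvPolynomial.map_aeval a (MvPolynomial.eval t : MvPolynomial (Fin r) ℤ →+* ℤ) I
  rw [h]
  have h2 : (MvPolynomial.eval t : MvPolynomial (Fin r) ℤ →+* ℤ).comp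
      (algebraMap ℤ (MvPolynomial (Fin r) ℤ)) = RingHom.id ℤ := Subsingleton.elim _ _
  rw [h2]
  rfl

/-- the kernel of the values of `P` divides the bad part -/
theorem ker_le (m N e : ℕ) (hN : 2 ≤ N) (I : MvPolynomial (Fin (N + 1)) ℤ)
    (hI : IsInvariant N e I) (b : Fin (N + 1) → ℤ) (x D' J' : ℤ) (d i : ℕ)
    (hD : (SzBF.form N b).discr = x ^ d * D') (hJ : MvPolynomial.eval b I = x ^ i * J')
    (hD0 : (SzBF.form N b).discr ≠ 0) (h : (2 * N - 2) * i < e * d) :
    ker (m * J') x ≤ badPart m N b := by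
  have hd : d ≠ 0 := by
    rintro rfl
    simp at h
  have hx : x ≠ 0 := by
    rintro rfl
    rw [zero_pow hd, zero_mul] at hD
    exact hD0 hD
  unfold ker badPart
  apply Finset.prod_le_prod_of_subset_of_one_le'
  · intro p hp
    rw [Finset.mem_filter] at hp
    obtain ⟨h1, h2⟩ := hp
    have hpp : p.Prime := Nat.prime_of_mem_primeFactors h1
    have hpx : (p : ℤ) ∣ x := Int.natCast_dvd.2 (Nat.dvd_of_mem_primeFactors h1)
    rw [Finset.mem_filter]
    refine ⟨Nat.mem_primeFactors.2 ⟨hpp, ?_, Int.natAbs_ne_zero.2 hD0⟩, ?_, hpp, ?_⟩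
    · rw [← Int.natCast_dvd, hD]
      exact Dvd.dvd.mul_right (hpx.trans (dvd_pow_self x hd)) D'
    · intro hm
      apply h2
      exact Dvd.dvd.mul_right (by exact_mod_cast hm) J'
    · haveI : Fact p.Prime := ⟨hpp⟩
      exact loc N e hN I hI p b x D' J' d i hD hJ hx hpx
        (fun h3 => h2 (Dvd.dvd.mul_left h3 _)) h
  · intro p hp _
    rw [Finset.mem_filter] at hp
    exact (Nat.prime_of_mem_primeFactors hp.1).one_le

theorem main (m N r w : ℕ) (hmN : m ∣ N) (hg : 2 ≤ SzBF.genus m N)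
    (a : Fin (N + 1) → MvPolynomial (Fin r) ℤ) (ha : ∀ i, (a i).totalDegree ≤ w)
    (haN : a (Fin.last N) ≠ 0) (hD : (SzBF.form N a).discr ≠ 0)
    (e : ℕ) (I : MvPolynomial (Fin (N + 1)) ℤ) (hI : IsInvariant N e I)
    (hj : ∀ c : ℤ, c ≠ 0 → ¬ (SzBF.form N a).discr ^ e ∣
      MvPolynomial.C c * (MvPolynomial.aeval a I) ^ (2 * N - 2))
    (κ : ℝ) (hκ : 8 * (w : ℝ) < κ) :
    ∃ C A η : ℝ, 0 < η ∧ ∀ T : ℕ, 1 ≤ T →
      (((cube r T).filter (fun t => ¬ SzBF.SmallPoint m N
        (SzBF.form N (fun i => MvPolynomial.eval t (a i)))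
        (κ * Real.log (badPart m N (fun i => MvPolynomial.eval t (a i))) + C))).card : ℝ)
        ≤ A * (T : ℝ) ^ ((r : ℝ) - η) := by
  obtain ⟨hm2, hN3⟩ := genus_two hg
  obtain ⟨P, D', J', d, i, hP, hPd, hDP, hJP, hPJ, hdi⟩ :=
    exists_prime r _ _ hD e (2 * N - 2) (by omega) hj
  have hw0 : (0 : ℝ) ≤ w := Nat.cast_nonneg w
  have hκ0 : 0 < κ := by linarith
  set ε : ℝ := (κ - 8 * w) / κ with hε
  have hε0 : 0 < ε := div_pos (by linarith) hκ0
  have hε1 : ε ≤ 1 := by
    rw [hε, div_le_one hκ0]; linarith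
  have hκε : κ * (1 - ε) = 8 * w := by
    rw [hε]; field_simp; ring
  obtain ⟨A1, η1, hη1, hA1⟩ := fib_gen r P J' hP hPd hPJ (m : ℤ) (by exact_mod_cast (by omega)) ε
    hε0 hε1
  obtain ⟨A2, hA20, hA2⟩ := cube_zero r (a (Fin.last N)) haN
  obtain ⟨A3, hA30, hA3⟩ := cube_zero r _ hD
  choose K hK using fun i => cube_growth r w (a i) (ha i)
  set K0 : ℕ := ∑ i, K i + 1 with hK0
  refine ⟨8 * Real.log K0 + 25 * Real.log (m * N), |A1| + A2 + A3, min η1 1,
    lt_min hη1 one_pos, fun T hT => ?_⟩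
  have hT1 : (1 : ℝ) ≤ T := by exact_mod_cast hT
  have hT0 : (0 : ℝ) < T := by linarith
  have hsub : (cube r T).filter (fun t => ¬ SzBF.SmallPoint m N
        (SzBF.form N (fun i => MvPolynomial.eval t (a i)))
        (κ * Real.log (badPart m N (fun i => MvPolynomial.eval t (a i))) +
          (8 * Real.log K0 + 25 * Real.log (m * N)))) ⊆
      ((cube r T).filter (fun t =>
        (ker ((m : ℤ) * MvPolynomial.eval t J') (MvPolynomial.eval t P) : ℝ) <
          (T : ℝ) ^ (1 - ε) ∨ MvPolynomial.eval t J' = 0)) ∪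
      (((cube r T).filter (fun t => MvPolynomial.eval t (a (Fin.last N)) = 0)) ∪
      ((cube r T).filter (fun t => MvPolynomial.eval t (SzBF.form N a).discr = 0))) := by
    intro t ht
    rw [Finset.mem_filter] at ht
    by_contra hcon
    rw [Finset.mem_union, Finset.mem_union, Finset.mem_filter, Finset.mem_filter,
      Finset.mem_filter] at hcon
    push Not at hcon
    obtain ⟨g1, g2, g3⟩ := hcon
    have k1 := (g1 ht.1).1
    have k2 := g2 ht.1
    have k3 := g3 ht.1
    apply ht.2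
    have hspec := discr_spec a haN t k2
    have hinv := eval_inv a I t
    have hdis : (SzBF.form N (fun i => MvPolynomial.eval t (a i))).discr ≠ 0 := by
      rw [hspec]; exact k3
    have hker := ker_le m N e (by omega) I hI (fun i => MvPolynomial.eval t (a i))
      (MvPolynomial.eval t P) (MvPolynomial.eval t D') (MvPolynomial.eval t J') d i
      (by rw [hspec, hDP, map_mul, map_pow]) (by rw [hinv, hJP, map_mul, map_pow]) hdis hdi
    have hbad : (T : ℝ) ^ (1 - ε) ≤
        (badPart m N (fun i => MvPolynomial.eval t (a i)) : ℝ) :=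
      le_trans k1 (by exact_mod_cast hker)
    have hlog : (1 - ε) * Real.log T ≤
        Real.log (badPart m N (fun i => MvPolynomial.eval t (a i))) := by
      rw [← Real.log_rpow hT0]
      exact Real.log_le_log (by positivity) hbad
    -- the height
    have hH : 1 ≤ K0 * T ^ w := Nat.one_le_iff_ne_zero.2
      (mul_ne_zero (by omega) (pow_ne_zero _ (by omega)))
    have hbox : (fun i => MvPolynomial.eval t (a i)) ∈ SzBF.box N (K0 * T ^ w) := by
      unfold SzBF.box
      rw [Fintype.mem_piFinset]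
      intro j
      rw [Finset.mem_Icc, ← abs_le]
      refine (hK j T hT t ht.1).trans ?_
      push_cast
      apply mul_le_mul_of_nonneg_right _ (by positivity)
      have h1 : K j ≤ ∑ i, K i := Finset.single_le_sum (fun _ _ => Nat.zero_le _) (Finset.mem_univ j)
      have h2 : K j ≤ K0 := by omega
      exact_mod_cast h2
    have hsm := (SzBF.main m N hmN hg).1 (K0 * T ^ w) hH _ hbox k2 hdis
    refine smallPoint_mono hsm ?_
    have hK0' : (0 : ℝ) < K0 := by exact_mod_cast (by omega : 0 < K0)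
    have e1 : Real.log ((K0 * T ^ w : ℕ) : ℝ) = Real.log K0 + w * Real.log T := by
      push_cast
      rw [Real.log_mul hK0'.ne' (by positivity), Real.log_pow]
    rw [e1]
    have e2 : κ * ((1 - ε) * Real.log T) ≤
        κ * Real.log (badPart m N (fun i => MvPolynomial.eval t (a i))) :=
      mul_le_mul_of_nonneg_left hlog hκ0.le
    rw [← mul_assoc, hκε] at e2
    linarith
  have hcard := (Finset.card_le_card hsub).trans ((Finset.card_union_le _ _).trans
      (Nat.add_le_add_left (Finset.card_union_le _ _) _))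
  have f1 : A1 * (T : ℝ) ^ ((r : ℝ) - η1) ≤ |A1| * (T : ℝ) ^ ((r : ℝ) - min η1 1) := by
    have h2 : (T : ℝ) ^ ((r : ℝ) - η1) ≤ (T : ℝ) ^ ((r : ℝ) - min η1 1) :=
      Real.rpow_le_rpow_of_exponent_le hT1 (by linarith [min_le_left η1 1])
    have h3 : 0 ≤ (T : ℝ) ^ ((r : ℝ) - η1) := by positivity
    calc A1 * (T : ℝ) ^ ((r : ℝ) - η1) ≤ |A1| * (T : ℝ) ^ ((r : ℝ) - η1) :=
          mul_le_mul_of_nonneg_right (le_abs_self A1) h3
      _ ≤ _ := mul_le_mul_of_nonneg_left h2 (abs_nonneg A1)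
  have f2 : ∀ x : ℝ, 0 ≤ x → x * (T : ℝ) ^ ((r : ℝ) - 1) ≤ x * (T : ℝ) ^ ((r : ℝ) - min η1 1) :=
    fun x hx => mul_le_mul_of_nonneg_left
      (Real.rpow_le_rpow_of_exponent_le hT1 (by linarith [min_le_right η1 1])) hx
  have hcard' : (((cube r T).filter (fun t => ¬ SzBF.SmallPoint m N
        (SzBF.form N (fun i => MvPolynomial.eval t (a i)))
        (κ * Real.log (badPart m N (fun i => MvPolynomial.eval t (a i))) +
          (8 * Real.log K0 + 25 * Real.log (m * N))))).card : ℝ) ≤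
      |A1| * (T : ℝ) ^ ((r : ℝ) - min η1 1) + (A2 * (T : ℝ) ^ ((r : ℝ) - min η1 1) +
        A3 * (T : ℝ) ^ ((r : ℝ) - min η1 1)) :=
    le_trans (by exact_mod_cast hcard) (add_le_add ((hA1 T hT).trans f1)
      (add_le_add ((hA2 T hT).trans (f2 A2 hA20)) ((hA3 T hT).trans (f2 A3 hA30))))
  refine hcard'.trans (le_of_eq ?_)
  ring

theorem every_family (m N r w : ℕ) (hmN : m ∣ N) (hg : 2 ≤ SzBF.genus m N)
    (a : Fin (N + 1) → MvPolynomial (Fin r) ℤ) (hw : ∀ i, (a i).totalDegree ≤ w)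
    (haN : a (Fin.last N) ≠ 0) (hD : (SzBF.form N a).discr ≠ 0) (ha : Moves a)
    (κ : ℝ) (hκ : 8 * (w : ℝ) < κ) :
    ∃ C A η : ℝ, 0 < η ∧ ∀ T : ℕ, 1 ≤ T →
      (((cube r T).filter (fun t => ¬ SzBF.SmallPoint m N (SzBF.form N (val a t))
        (κ * Real.log (badPart m N (val a t)) + C))).card : ℝ) ≤ A * (T : ℝ) ^ ((r : ℝ) - η) := by
  obtain ⟨e, I, hI, hj⟩ := ha
  exact main m N r w hmN hg a hw haN hD e I hI hj κ hκ

end SzFM
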