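import Mathlib

/-!
Bezout identities in one of the variables.
-/

namespace SzFM

open MvPolynomial

private theorem bez_clear {R K : Type*} [CommRing R] [IsDomain R] [Field K] [Algebra R K]
    [IsFractionRing R K] (f g : Polynomial R)
    (h : IsCoprime (f.map (algebraMap R K)) (g.map (algebraMap R K))) :
    ∃ W : R, W ≠ 0 ∧ ∃ U V : Polynomial R, U * f + V * g = Polynomial.C W := by
  obtain ⟨a, b, hab⟩ := h
  obtain ⟨s, hs0, hs⟩ := IsLocalization.integerNormalization_spec (nonZeroDivisors R) a
  obtain ⟨t, ht0, ht⟩ := IsLocalization.integerNormalization_spec (nonZeroDivisors R) b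
  refine ⟨s * t, mul_ne_zero (nonZeroDivisors.ne_zero hs0) (nonZeroDivisors.ne_zero ht0),
    Polynomial.C t * IsLocalization.integerNormalization (nonZeroDivisors R) a,
    Polynomial.C s * IsLocalization.integerNormalization (nonZeroDivisors R) b, ?_⟩
  apply Polynomial.map_injective (algebraMap R K) (IsFractionRing.injective R K)
  rw [Polynomial.map_add, Polynomial.map_mul, Polynomial.map_mul, Polynomial.map_mul,
    Polynomial.map_mul, hs, ht, Polynomial.map_C, Polynomial.map_C, Polynomial.map_C, map_mul,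
    Polynomial.C_mul]
  have e1 : ∀ (c : R) (p : Polynomial K), c • p = Polynomial.C (algebraMap R K c) * p := by
    intro c p
    rw [← Polynomial.smul_eq_C_mul, algebraMap_smul]
  rw [e1, e1]
  linear_combination (Polynomial.C (algebraMap R K s) *
    Polynomial.C (algebraMap R K t)) * hab

private theorem bez_core {R : Type*} [CommRing R] [IsDomain R] [UniqueFactorizationMonoid R]
    [CharZero R] (f g : Polynomial R) (hf : Irreducible f) (h0 : 0 < f.natDegree)
    (hg : ¬ f ∣ g) :
    (∃ W : R, W ≠ 0 ∧ ∃ U V : Polynomial R,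
      U * f + V * Polynomial.derivative f = Polynomial.C W) ∧
    (∃ W : R, W ≠ 0 ∧ ∃ U V : Polynomial R, U * f + V * g = Polynomial.C W) := by
  classical
  let _ : NormalizedGCDMonoid R := Classical.choice inferInstance
  have hprim : f.IsPrimitive := hf.isPrimitive h0.ne'
  have hirr : Irreducible (f.map (algebraMap R (FractionRing R))) :=
    (hprim.irreducible_iff_irreducible_map_fraction_map (K := FractionRing R)).mp hf
  have : CharZero (FractionRing R) :=
    charZero_of_injective_algebraMap (IsFractionRing.injective R (FractionRing R))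
  constructor
  · apply bez_clear (K := FractionRing R)
    have h1 : (f.map (algebraMap R (FractionRing R))).Separable := hirr.separable
    rw [Polynomial.Separable, Polynomial.derivative_map] at h1
    exact h1
  · apply bez_clear (K := FractionRing R)
    rw [hirr.coprime_iff_not_dvd]
    intro hdvd
    apply hg
    exact hprim.dvd_of_fraction_map_dvd_fraction_map hdvd

theorem bez (n : ℕ) (P J : MvPolynomial (Fin (n + 1)) ℤ) (hP : Irreducible P)
    (h0 : 0 < P.degreeOf 0) (hJ : ¬ P ∣ J) :
    ∃ W : MvPolynomial (Fin n) ℤ, W ≠ 0 ∧ ∀ u : Fin n → ℤ, eval u W ≠ 0 →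
      1 ≤ ((finSuccEquiv ℤ n P).map (eval u)).natDegree ∧
      (∃ U V : Polynomial ℤ, U * (finSuccEquiv ℤ n P).map (eval u) +
        V * Polynomial.derivative ((finSuccEquiv ℤ n P).map (eval u)) =
          Polynomial.C (eval u W)) ∧
      (∃ U V : Polynomial ℤ, U * (finSuccEquiv ℤ n P).map (eval u) +
        V * (finSuccEquiv ℤ n J).map (eval u) = Polynomial.C (eval u W)) := by
  have hf : Irreducible (finSuccEquiv ℤ n P) :=
    (MulEquiv.irreducible_iff (finSuccEquiv ℤ n).toMulEquiv).mpr hP
  have hdeg : 0 < (finSuccEquiv ℤ n P).natDegree := by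
    rw [natDegree_finSuccEquiv]; exact h0
  have hg : ¬ finSuccEquiv ℤ n P ∣ finSuccEquiv ℤ n J := by
    intro h
    apply hJ
    have h1 := map_dvd (finSuccEquiv ℤ n).symm h
    simpa using h1
  obtain ⟨⟨W1, hW1, U1, V1, h1⟩, ⟨W2, hW2, U2, V2, h2⟩⟩ := bez_core _ _ hf hdeg hg
  have hf0 : finSuccEquiv ℤ n P ≠ 0 := hf.ne_zero
  refine ⟨(finSuccEquiv ℤ n P).leadingCoeff * (W1 * W2),
    mul_ne_zero (Polynomial.leadingCoeff_ne_zero.mpr hf0) (mul_ne_zero hW1 hW2), ?_⟩
  intro u hu
  rw [map_mul] at hu
  have hl : eval u (finSuccEquiv ℤ n P).leadingCoeff ≠ 0 := left_ne_zero_of_mul hu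
  refine ⟨?_, ?_, ?_⟩
  · rw [Polynomial.natDegree_map_of_leadingCoeff_ne_zero _ hl]
    exact hdeg
  · have h3 := congrArg (Polynomial.map (eval u)) h1
    rw [Polynomial.map_add, Polynomial.map_mul, Polynomial.map_mul, Polynomial.map_C,
      ← Polynomial.derivative_map] at h3
    refine ⟨Polynomial.C (eval u ((finSuccEquiv ℤ n P).leadingCoeff * W2)) * U1.map (eval u),
      Polynomial.C (eval u ((finSuccEquiv ℤ n P).leadingCoeff * W2)) * V1.map (eval u), ?_⟩
    have h4 : Polynomial.C (eval u ((finSuccEquiv ℤ n P).leadingCoeff * (W1 * W2))) =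
        Polynomial.C (eval u ((finSuccEquiv ℤ n P).leadingCoeff * W2)) *
          Polynomial.C (eval u W1) := by
      rw [← Polynomial.C_mul, ← map_mul]
      congr 2
      ring
    rw [h4, ← h3]
    ring
  · have h3 := congrArg (Polynomial.map (eval u)) h2
    rw [Polynomial.map_add, Polynomial.map_mul, Polynomial.map_mul, Polynomial.map_C] at h3
    refine ⟨Polynomial.C (eval u ((finSuccEquiv ℤ n P).leadingCoeff * W1)) * U2.map (eval u),
      Polynomial.C (eval u ((finSuccEquiv ℤ n P).leadingCoeff * W1)) * V2.map (eval u), ?_⟩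
    have h4 : Polynomial.C (eval u ((finSuccEquiv ℤ n P).leadingCoeff * (W1 * W2))) =
        Polynomial.C (eval u ((finSuccEquiv ℤ n P).leadingCoeff * W1)) *
          Polynomial.C (eval u W2) := by
      rw [← Polynomial.C_mul, ← map_mul]
      congr 2
      ring
    rw [h4, ← h3]
    ring

end SzFM
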