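import Mathlib

/-!
Residue classes of the zeros of an integral polynomial modulo prime powers.
-/

open Polynomial

namespace SzFM

/-- the norm of an integer not divisible by `p^e` -/
private lemma norm_ge (p : ℕ) [hp : Fact p.Prime] (e : ℕ) (he : 1 ≤ e) (z : ℤ)
    (hz : ¬ (p : ℤ) ^ e ∣ z) : ((p : ℚ) ^ (e - 1))⁻¹ ≤ padicNorm p z := by
  have hz0 : (z : ℚ) ≠ 0 := by
    intro h
    apply hz
    have : z = 0 := by exact_mod_cast h
    rw [this]; exact dvd_zero _
  have h1 : ¬ padicNorm p z ≤ (p : ℚ) ^ (-(e : ℤ)) := by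
    rw [← padicNorm.dvd_iff_norm_le]
    push_cast
    exact hz
  push Not at h1
  obtain ⟨m, hm⟩ := padicNorm.values_discrete (p := p) hz0
  rw [hm] at h1 ⊢
  have hp1 : (1 : ℚ) < p := by exact_mod_cast hp.out.one_lt
  have h2 : -(e : ℤ) < -m := (zpow_lt_zpow_iff_right₀ hp1).1 h1
  rw [← zpow_natCast, ← zpow_neg]
  apply zpow_le_zpow_right₀ hp1.le
  rw [Nat.cast_sub he]
  push_cast
  omega

theorem cls_prim (P : ℤ[X]) (hP : P.IsPrimitive) (p : ℕ) (hp : p.Prime) (v e : ℕ) (he : 1 ≤ e)
    (hv : P.natDegree * (e - 1) < v) (Y : Finset ℤ) (hY : ∀ y ∈ Y, (p : ℤ) ^ v ∣ P.eval y)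
    (hd : ∀ y ∈ Y, ∀ y' ∈ Y, y ≠ y' → ¬ (p : ℤ) ^ e ∣ y - y') : Y.card ≤ P.natDegree := by
  classical
  have : Fact p.Prime := ⟨hp⟩
  by_contra hcon
  push Not at hcon
  obtain ⟨S, hSY, hSc⟩ := Finset.exists_subset_card_eq (show P.natDegree + 1 ≤ Y.card by omega)
  have hp1 : (1 : ℚ) < p := by exact_mod_cast hp.one_lt
  have hp0 : (0 : ℚ) < p := by linarith
  set PQ : ℚ[X] := P.map (Int.castRingHom ℚ) with hPQ
  have hinj : Set.InjOn (fun y : ℤ => (y : ℚ)) (S : Set ℤ) := fun a _ b _ h => by simpa using h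
  have hdeg : PQ.degree < S.card := by
    rw [hSc]
    refine lt_of_le_of_lt degree_le_natDegree ?_
    have h1 : PQ.natDegree ≤ P.natDegree := natDegree_map_le
    exact_mod_cast Nat.lt_succ_of_le h1
  have hint := Lagrange.eq_interpolate hinj hdeg
  have hcoef : ∀ t, (p : ℤ) ∣ P.coeff t := by
    intro t
    rw [← padicNorm.int_lt_one_iff (p := p)]
    have h1 : ((P.coeff t : ℤ) : ℚ) = ∑ i ∈ S, (PQ.eval (i : ℚ)) *
        ((∏ j ∈ S.erase i, ((i : ℚ) - j)⁻¹) *
          (((∏ j ∈ S.erase i, (X - C j) : ℤ[X]).coeff t : ℤ) : ℚ)) := by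
      have h2 : ((P.coeff t : ℤ) : ℚ) = PQ.coeff t := by rw [hPQ, coeff_map]; rfl
      have h2' := congrArg (fun f : ℚ[X] => f.coeff t) hint
      rw [h2, h2', Lagrange.interpolate_apply, finsetSum_coeff]
      refine Finset.sum_congr rfl (fun i _ => ?_)
      rw [coeff_C_mul]
      congr 1
      · have h3 : Lagrange.basis S (fun y : ℤ => (y : ℚ)) i
            = C (∏ j ∈ S.erase i, ((i : ℚ) - j)⁻¹) *
              (∏ j ∈ S.erase i, (X - C j) : ℤ[X]).map (Int.castRingHom ℚ) := by
          rw [Lagrange.basis, Polynomial.map_prod, map_prod, ← Finset.prod_mul_distrib]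
          refine Finset.prod_congr rfl (fun j _ => ?_)
          rw [Lagrange.basisDivisor]
          simp
        rw [h3, coeff_C_mul, coeff_map]
        rfl
    rw [h1]
    refine padicNorm.sum_lt' (fun i hi => ?_) one_pos
    rw [padicNorm.mul, padicNorm.mul]
    have hiY : i ∈ Y := hSY hi
    have a1 : padicNorm p (PQ.eval (i : ℚ)) ≤ ((p : ℚ) ^ v)⁻¹ := by
      have h2 : PQ.eval (i : ℚ) = ((P.eval i : ℤ) : ℚ) := by
        rw [hPQ, eval_map]
        have := (eval₂_at_apply (Int.castRingHom ℚ) i (p := P))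
        exact this
      rw [h2, ← zpow_natCast, ← zpow_neg]
      rw [← padicNorm.dvd_iff_norm_le]
      push_cast
      exact hY i hiY
    have a2 : padicNorm p (∏ j ∈ S.erase i, ((i : ℚ) - j)⁻¹)
        ≤ ((p : ℚ) ^ (e - 1)) ^ P.natDegree := by
      have hprod : ∀ T : Finset ℤ, (∀ j ∈ T, j ∈ Y ∧ i ≠ j) →
          padicNorm p (∏ j ∈ T, ((i : ℚ) - j)⁻¹) ≤ ((p : ℚ) ^ (e - 1)) ^ T.card := by
        intro T
        induction T using Finset.induction_on with
        | empty => intro _; simp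
        | insert a T ha ih =>
          intro hT
          rw [Finset.prod_insert ha, Finset.card_insert_of_notMem ha, padicNorm.mul, pow_succ,
            mul_comm]
          apply mul_le_mul (ih (fun j hj => hT j (Finset.mem_insert_of_mem hj))) _
            (padicNorm.nonneg _) (by positivity)
          obtain ⟨haY, hia⟩ := hT a (Finset.mem_insert_self _ _)
          have h3 := norm_ge p e he (i - a) (hd i hiY a haY hia)
          have h4 : padicNorm p ((i : ℚ) - a)⁻¹ = (padicNorm p (((i - a : ℤ)) : ℚ))⁻¹ := by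
            have h5 := padicNorm.div (p := p) 1 ((i : ℚ) - a)
            rw [one_div, padicNorm.one, one_div] at h5
            rw [h5]; push_cast; rfl
          rw [h4]
          exact inv_le_of_inv_le₀ (by positivity) h3
      have h6 := hprod (S.erase i) (fun j hj =>
        ⟨hSY (Finset.mem_of_mem_erase hj), (Finset.ne_of_mem_erase hj).symm⟩)
      have h7 : (S.erase i).card = P.natDegree := by
        rw [Finset.card_erase_of_mem hi, hSc]; simp
      rwa [h7] at h6
    have a3 : padicNorm p ((((∏ j ∈ S.erase i, (X - C j) : ℤ[X]).coeff t : ℤ)) : ℚ) ≤ 1 :=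
      padicNorm.of_int _
    have a4 : padicNorm p (PQ.eval (i : ℚ)) *
        (padicNorm p (∏ j ∈ S.erase i, ((i : ℚ) - j)⁻¹) *
          padicNorm p ((((∏ j ∈ S.erase i, (X - C j) : ℤ[X]).coeff t : ℤ)) : ℚ))
        ≤ ((p : ℚ) ^ v)⁻¹ * (((p : ℚ) ^ (e - 1)) ^ P.natDegree * 1) := by
      apply mul_le_mul a1 _ (mul_nonneg (padicNorm.nonneg _) (padicNorm.nonneg _)) (by positivity)
      exact mul_le_mul a2 a3 (padicNorm.nonneg _) (by positivity)
    refine lt_of_le_of_lt a4 ?_
    rw [mul_one, ← pow_mul, inv_mul_lt_iff₀ (by positivity), mul_one]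
    apply pow_lt_pow_right₀ hp1
    rw [mul_comm]
    exact hv
  have hCp : C (p : ℤ) ∣ P := (C_dvd_iff_dvd_coeff _ _).2 hcoef
  have hu := hP _ hCp
  rw [Int.isUnit_iff] at hu
  have := hp.one_lt
  omega

theorem cls_sep (P U V : ℤ[X]) (W : ℤ) (h : U * P + V * derivative P = C W) (p : ℕ)
    (hp : p.Prime) (hW : ¬ (p : ℤ) ∣ W) (v : ℕ) (hv : 1 ≤ v) (Y : Finset ℤ)
    (hY : ∀ y ∈ Y, (p : ℤ) ^ v ∣ P.eval y)
    (hd : ∀ y ∈ Y, ∀ y' ∈ Y, y ≠ y' → ¬ (p : ℤ) ^ v ∣ y - y') : Y.card ≤ P.natDegree := by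
  classical
  have : Fact p.Prime := ⟨hp⟩
  have hpv : (p : ℤ) ∣ (p : ℤ) ^ v := dvd_pow_self _ (by omega)
  set φ := Int.castRingHom (ZMod p) with hφ
  have hP0 : P.map φ ≠ 0 := by
    intro h0
    apply hW
    have h1 : (U * P + V * derivative P).map φ = (C W).map φ := by rw [h]
    rw [Polynomial.map_add, Polynomial.map_mul, Polynomial.map_mul, ← derivative_map, h0] at h1
    simp only [mul_zero, derivative_zero, add_zero, map_C] at h1
    have h2 : φ W = 0 := by
      have := h1.symm
      rwa [C_eq_zero] at this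
    rw [← ZMod.intCast_zmod_eq_zero_iff_dvd]
    exact h2
  have hinj : Set.InjOn (fun y : ℤ => (y : ZMod p)) (Y : Set ℤ) := by
    intro y hy y' hy' heq
    by_contra hne
    apply hd y hy y' hy' hne
    have hpd : (p : ℤ) ∣ y - y' := by
      rw [← ZMod.intCast_zmod_eq_zero_iff_dvd]
      push_cast
      exact sub_eq_zero.2 heq
    obtain ⟨k, hk⟩ := binomExpansion P y' (y - y')
    have e1 : y' + (y - y') = y := by ring
    rw [e1] at hk
    have h1 : (p : ℤ) ^ v ∣ (y - y') * ((derivative P).eval y' + k * (y - y')) := by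
      have h2 : (y - y') * ((derivative P).eval y' + k * (y - y')) = P.eval y - P.eval y' := by
        rw [hk]; ring
      rw [h2]
      exact dvd_sub (hY y hy) (hY y' hy')
    have h3 : ¬ (p : ℤ) ∣ (derivative P).eval y' + k * (y - y') := by
      intro h4
      have h5 : (p : ℤ) ∣ (derivative P).eval y' := by
        have := dvd_sub h4 (hpd.mul_left k)
        rwa [add_sub_cancel_right] at this
      apply hW
      have h6 : W = U.eval y' * P.eval y' + V.eval y' * (derivative P).eval y' := by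
        have := congrArg (eval y') h
        rw [eval_add, eval_mul, eval_mul, eval_C] at this
        exact this.symm
      rw [h6]
      exact dvd_add ((hpv.trans (hY y' hy')).mul_left _) (h5.mul_left _)
    have hpp : Prime (p : ℤ) := Nat.prime_iff_prime_int.1 hp
    have hco : IsCoprime ((p : ℤ) ^ v) ((derivative P).eval y' + k * (y - y')) :=
      ((hpp.coprime_iff_not_dvd).2 h3).pow_left
    exact hco.dvd_of_dvd_mul_right h1
  calc Y.card = (Y.image (fun y : ℤ => (y : ZMod p))).card := (Finset.card_image_of_injOn hinj).symm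
    _ ≤ (P.map φ).roots.toFinset.card := by
        apply Finset.card_le_card
        intro a ha
        obtain ⟨y, hy, rfl⟩ := Finset.mem_image.1 ha
        rw [Multiset.mem_toFinset, mem_roots hP0, IsRoot.def]
        have h1 : (P.map φ).eval (y : ZMod p) = ((P.eval y : ℤ) : ZMod p) := by
          rw [eval_map]
          exact eval₂_at_apply φ y (p := P)
        rw [h1, ZMod.intCast_zmod_eq_zero_iff_dvd]
        exact hpv.trans (hY y hy)
    _ ≤ Multiset.card (P.map φ).roots := Multiset.toFinset_card_le _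
    _ ≤ (P.map φ).natDegree := card_roots' _
    _ ≤ P.natDegree := natDegree_map_le

end SzFM
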