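import Mathlib

/-!
Sets of integers which lie in few residue classes modulo several prime powers.
-/

open scoped Classical

namespace SzFM

private lemma res_count (d : ℕ) (hd : 0 < d) (s : ℤ) (B : ℕ) :
    (((Finset.Icc (-(B : ℤ)) B).filter (fun y => (d : ℤ) ∣ y - s)).card : ℝ)
      ≤ (2 * B + 1) / d + 1 := by
  have hd' : (0 : ℤ) < d := by exact_mod_cast hd
  have h1 : (Finset.Icc (-(B : ℤ)) B).filter (fun y => (d : ℤ) ∣ y - s) =
      (Finset.Ioc (-(B : ℤ) - 1) B).filter (fun y => y ≡ s [ZMOD d]) := by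
    ext y
    simp only [Finset.mem_filter, Finset.mem_Icc, Finset.mem_Ioc]
    rw [Int.modEq_comm, Int.modEq_iff_dvd]
    constructor
    · rintro ⟨⟨h1, h2⟩, h3⟩
      exact ⟨⟨by omega, h2⟩, h3⟩
    · rintro ⟨⟨h1, h2⟩, h3⟩
      exact ⟨⟨by omega, h2⟩, h3⟩
  rw [h1]
  have h2 := Int.Ioc_filter_modEq_card (-(B : ℤ) - 1) B hd' s
  have hdr : (0 : ℝ) < d := by exact_mod_cast hd
  have hdq : (0 : ℚ) < d := by exact_mod_cast hd
  have h3 : (((max (⌊((B : ℤ) - s : ℚ) / ((d : ℤ) : ℚ)⌋ -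
      ⌊(((-(B : ℤ) - 1 : ℤ) : ℚ) - s) / ((d : ℤ) : ℚ)⌋) 0 : ℤ) : ℚ)) ≤ (2 * B + 1) / d + 1 := by
    rw [Int.cast_max]
    refine max_le ?_ ?_
    · push_cast
      have h4 := Int.floor_le (((B : ℚ) - s) / (d : ℚ))
      have h5 := Int.lt_floor_add_one ((-(B : ℚ) - 1 - s) / (d : ℚ))
      have h6 : ((B : ℚ) - s) / d - (-(B : ℚ) - 1 - s) / d = (2 * B + 1) / d := by
        field_simp; ring
      linarith
    · push_cast
      positivity
  have h7 : (((((Finset.Ioc (-(B : ℤ) - 1) B).filter (fun y => y ≡ s [ZMOD d])).card : ℤ) : ℚ))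
      ≤ (2 * B + 1) / d + 1 := by
    rw [h2]
    exact_mod_cast h3
  have h8 : ((((((Finset.Ioc (-(B : ℤ) - 1) B).filter (fun y => y ≡ s [ZMOD d])).card : ℤ) : ℚ)
      : ℚ) : ℝ) ≤ (((2 * B + 1) / d + 1 : ℚ) : ℝ) := by exact_mod_cast h7
  push_cast at h8
  exact h8

theorem crt_count (F : Finset ℕ) (hF : ∀ p ∈ F, p.Prime) (e : ℕ → ℕ) (d T : ℕ) (S : Finset ℤ)
    (hS : S ⊆ Finset.Icc (-(T : ℤ)) T)
    (h : ∀ p ∈ F, ∀ Y ⊆ S, (∀ y ∈ Y, ∀ y' ∈ Y, y ≠ y' → ¬ (p : ℤ) ^ (e p) ∣ y - y') →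
      Y.card ≤ d) :
    (S.card : ℝ) ≤ (d : ℝ) ^ F.card * ((2 * T + 1) / (∏ p ∈ F, (p : ℝ) ^ (e p)) + 1) := by
  -- the residue classes modulo one prime power
  have hI : ∀ p ∈ F, (S.image (fun y : ℤ => (y : ZMod (p ^ e p)))).card ≤ d := by
    intro p hp
    set I := S.image (fun y : ℤ => (y : ZMod (p ^ e p))) with hIdef
    have hg : ∀ c : {c // c ∈ I}, ∃ y ∈ S, (y : ZMod (p ^ e p)) = c.1 := by
      intro c
      exact Finset.mem_image.mp c.2
    choose g hg1 hg2 using hg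
    have hinj : Function.Injective g := by
      intro c c' hcc
      apply Subtype.ext
      rw [← hg2 c, ← hg2 c', hcc]
    have h1 := h p hp (I.attach.image g) (by
      intro y hy
      obtain ⟨c, -, rfl⟩ := Finset.mem_image.mp hy
      exact hg1 c) (by
      intro y hy y' hy' hne hdvd
      obtain ⟨c, -, rfl⟩ := Finset.mem_image.mp hy
      obtain ⟨c', -, rfl⟩ := Finset.mem_image.mp hy'
      apply hne
      have h2 : (g c : ZMod (p ^ e p)) = (g c' : ZMod (p ^ e p)) := by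
        rw [eq_comm, ZMod.intCast_eq_intCast_iff_dvd_sub]
        exact_mod_cast hdvd
      rw [hg2 c, hg2 c'] at h2
      rw [Subtype.ext h2])
    rw [Finset.card_image_of_injective _ hinj, Finset.card_attach] at h1
    exact h1
  -- the joint residue classes
  let Φ : ℤ → ((p : {p // p ∈ F}) → ZMod (p.1 ^ e p.1)) := fun y p => (y : ZMod (p.1 ^ e p.1))
  let J : Finset ((p : {p // p ∈ F}) → ZMod (p.1 ^ e p.1)) :=
    Fintype.piFinset (fun p : {p // p ∈ F} => S.image (fun y : ℤ => (y : ZMod (p.1 ^ e p.1))))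
  have hJ : J.card ≤ d ^ F.card := by
    have h1 : J.card = ∏ p : {p // p ∈ F},
        (S.image (fun y : ℤ => (y : ZMod (p.1 ^ e p.1)))).card := Fintype.card_piFinset _
    rw [h1]
    refine (Finset.prod_le_prod' (fun p _ => hI p.1 p.2)).trans ?_
    rw [Finset.prod_const, Finset.card_univ, Fintype.card_coe]
  have hmaps : ∀ y ∈ S, Φ y ∈ J := by
    intro y hy
    rw [Fintype.mem_piFinset]
    intro p
    exact Finset.mem_image_of_mem _ hy
  set M : ℕ := ∏ p ∈ F, p ^ (e p) with hM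
  have hM0 : 0 < M := Finset.prod_pos fun p hp => pow_pos (hF p hp).pos _
  have hMr : (∏ p ∈ F, (p : ℝ) ^ (e p)) = (M : ℝ) := by
    rw [hM]; push_cast; rfl
  have hfib : ∀ c ∈ J, ((S.filter (fun y => Φ y = c)).card : ℝ) ≤ (2 * T + 1) / M + 1 := by
    intro c _
    by_cases hne : (S.filter (fun y => Φ y = c)).Nonempty
    · obtain ⟨y₀, hy₀⟩ := hne
      rw [Finset.mem_filter] at hy₀
      refine le_trans ?_ (res_count M hM0 y₀ T)
      have h2 : (S.filter (fun y => Φ y = c)) ⊆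
          (Finset.Icc (-(T : ℤ)) T).filter (fun y => (M : ℤ) ∣ y - y₀) := by
        intro y hy
        rw [Finset.mem_filter] at hy ⊢
        refine ⟨hS hy.1, ?_⟩
        rw [hM]
        push_cast
        refine Finset.prod_dvd_of_coprime ?_ ?_
        · intro p hp q hq hpq
          exact (Nat.isCoprime_iff_coprime.mpr
            ((Nat.coprime_primes (hF p hp) (hF q hq)).mpr hpq)).pow
        · intro p hp
          have h3 := congrFun (hy.2.trans hy₀.2.symm) ⟨p, hp⟩
          change (y : ZMod (p ^ e p)) = (y₀ : ZMod (p ^ e p)) at h3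
          rw [eq_comm, ZMod.intCast_eq_intCast_iff_dvd_sub] at h3
          exact_mod_cast h3
      exact_mod_cast Finset.card_le_card h2
    · rw [Finset.not_nonempty_iff_eq_empty] at hne
      rw [hne, Finset.card_empty, Nat.cast_zero]
      positivity
  rw [hMr, Finset.card_eq_sum_card_fiberwise hmaps]
  push_cast
  refine (Finset.sum_le_sum hfib).trans ?_
  rw [Finset.sum_const, nsmul_eq_mul]
  refine mul_le_mul_of_nonneg_right ?_ (by positivity)
  exact_mod_cast hJ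

end SzFM
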