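import Pool.Agent.SzFM.Pt

/-!
Large prime powers which are not primes.
-/

open Polynomial
open scoped Classical

namespace SzFM

private lemma ev1_cnt (d : ℕ) (hd : 1 ≤ d) (P U V : ℤ[X]) (W Q : ℤ) (hP : P.IsPrimitive)
    (hPd : P.natDegree ≤ d) (h : U * P + V * derivative P = C W) (hWQ : W ∣ Q)
    (p v : ℕ) (hp : p.Prime) (hpQ : ¬ (p : ℤ) ∣ Q) (hv : 1 ≤ v) (T : ℕ) :
    (((Finset.Icc (-(T : ℤ)) T).filter (fun x => (p : ℤ) ^ v ∣ P.eval x)).card : ℝ) ≤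
      (d : ℝ) * ((2 * T + 1) / (p : ℝ) ^ v + 1) := by
  have h1 := pt_count d hd P U V W Q hP hPd h hWQ (p ^ v) (pow_ne_zero _ hp.ne_zero) T
  have hpf : (p ^ v).primeFactors = {p} := Nat.primeFactors_prime_pow (by omega) hp
  have hmd : md d Q (p ^ v) = (p : ℝ) ^ v := by
    unfold md
    rw [hpf, Finset.prod_singleton, hp.factorization_pow, Finsupp.single_eq_same]
    unfold ex
    rw [if_neg hpQ]
  rw [hpf, hmd, Finset.card_singleton, pow_one] at h1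
  push_cast at h1
  exact h1

theorem ev1 (d : ℕ) (hd : 1 ≤ d) (θ δ : ℝ) (hθ : 0 < θ) (hθ1 : θ ≤ 1 / 2) (hδ : 0 < δ)
    (hδ1 : δ ≤ 1 / 2) : ∃ A η : ℝ, 0 < η ∧ ∀ T : ℕ, 1 ≤ T → ∀ (P U V : ℤ[X]) (W Q : ℤ),
      P.IsPrimitive → P.natDegree ≤ d → U * P + V * derivative P = C W → W ∣ Q →
      (((Finset.Icc (-(T : ℤ)) T).filter (fun x => ∃ p v : ℕ, p.Prime ∧ ¬ (p : ℤ) ∣ Q ∧ 2 ≤ v ∧
        (p : ℤ) ^ v ∣ P.eval x ∧ (T : ℝ) ^ θ < (p : ℝ) ^ v ∧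
        (p : ℝ) ≤ (T : ℝ) ^ (1 - δ))).card : ℝ) ≤ A * (T : ℝ) ^ (1 - η) := by
  refine ⟨11 * d, min (θ / 2) δ, lt_min (by positivity) hδ, ?_⟩
  intro T hT P U V W Q hP hPd hUV hWQ
  have hT1 : (1 : ℝ) ≤ (T : ℝ) := by exact_mod_cast hT
  have hT0 : (0 : ℝ) < (T : ℝ) := by linarith
  set y : ℝ := (T : ℝ) ^ (θ / 2) with hy
  have hy1 : 1 ≤ y := Real.one_le_rpow hT1 (by positivity)
  set k : ℕ := ⌊y⌋₊ with hk
  have hk1 : 1 ≤ k := Nat.le_floor (by exact_mod_cast hy1)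
  have hky : (k : ℝ) ≤ y := Nat.floor_le (by linarith)
  have hyk : y ≤ 2 * k := by
    have h1 : y < k + 1 := Nat.lt_floor_add_one y
    have h2 : (1 : ℝ) ≤ k := by exact_mod_cast hk1
    linarith
  set n : ℕ := ⌊(T : ℝ) ^ (1 - δ)⌋₊ with hn
  have hnT : (n : ℝ) ≤ (T : ℝ) ^ (1 - δ) := Nat.floor_le (by positivity)
  -- the small primes
  set ok : ℕ → Prop := fun p => p.Prime ∧ (¬ (p : ℤ) ∣ Q) ∧ ∃ v : ℕ, 2 ≤ v ∧ (T : ℝ) ^ θ < (p : ℝ) ^ v with hok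
  set vv : ℕ → ℕ := fun p => if h : ∃ v : ℕ, 2 ≤ v ∧ (T : ℝ) ^ θ < (p : ℝ) ^ v then Nat.find h else 2 with hvv
  set S1 : Finset ℕ := (Finset.Icc 1 k).filter ok with hS1
  set S2 : Finset ℕ := (Finset.Ioc k n).filter (fun p => p.Prime ∧ ¬ (p : ℤ) ∣ Q) with hS2
  have hsub : (Finset.Icc (-(T : ℤ)) T).filter (fun x => ∃ p v : ℕ, p.Prime ∧ ¬ (p : ℤ) ∣ Q ∧ 2 ≤ v ∧
        (p : ℤ) ^ v ∣ P.eval x ∧ (T : ℝ) ^ θ < (p : ℝ) ^ v ∧ (p : ℝ) ≤ (T : ℝ) ^ (1 - δ)) ⊆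
      (S1.biUnion fun p => (Finset.Icc (-(T : ℤ)) T).filter (fun x => (p : ℤ) ^ (vv p) ∣ P.eval x)) ∪
      (S2.biUnion fun p => (Finset.Icc (-(T : ℤ)) T).filter (fun x => (p : ℤ) ^ 2 ∣ P.eval x)) := by
    intro x hx
    rw [Finset.mem_filter] at hx
    obtain ⟨hxT, p, v, hp, hpQ, hv, hdvd, hpv, hpT⟩ := hx
    rw [Finset.mem_union, Finset.mem_biUnion, Finset.mem_biUnion]
    by_cases hpk : p ≤ k
    · left
      refine ⟨p, ?_, ?_⟩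
      · rw [hS1, Finset.mem_filter, Finset.mem_Icc]
        exact ⟨⟨hp.one_lt.le, hpk⟩, hp, hpQ, v, hv, hpv⟩
      · rw [Finset.mem_filter]
        refine ⟨hxT, ?_⟩
        have hex : ∃ v : ℕ, 2 ≤ v ∧ (T : ℝ) ^ θ < (p : ℝ) ^ v := ⟨v, hv, hpv⟩
        have hvle : vv p ≤ v := by
          simp only [hvv]
          rw [dif_pos hex]
          exact Nat.find_min' hex ⟨hv, hpv⟩
        exact (pow_dvd_pow _ hvle).trans hdvd
    · right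
      refine ⟨p, ?_, ?_⟩
      · rw [hS2, Finset.mem_filter, Finset.mem_Ioc]
        exact ⟨⟨by omega, Nat.le_floor hpT⟩, hp, hpQ⟩
      · rw [Finset.mem_filter]
        exact ⟨hxT, (pow_dvd_pow _ hv).trans hdvd⟩
  have hc1 : (((S1.biUnion fun p => (Finset.Icc (-(T : ℤ)) T).filter (fun x => (p : ℤ) ^ (vv p) ∣ P.eval x)).card : ℕ) : ℝ) ≤
      4 * d * (T : ℝ) ^ (1 - θ / 2) := by
    have hb : ∀ p ∈ S1, (((Finset.Icc (-(T : ℤ)) T).filter (fun x => (p : ℤ) ^ (vv p) ∣ P.eval x)).card : ℝ) ≤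
        4 * d * (T : ℝ) ^ (1 - θ) := by
      intro p hpS
      rw [hS1, Finset.mem_filter] at hpS
      obtain ⟨_, hp, hpQ, hex⟩ := hpS
      have hspec : 2 ≤ vv p ∧ (T : ℝ) ^ θ < (p : ℝ) ^ (vv p) := by
        simp only [hvv]
        rw [dif_pos hex]
        exact Nat.find_spec hex
      have h1 := ev1_cnt d hd P U V W Q hP hPd hUV hWQ p (vv p) hp hpQ (by omega) T
      have hTθ : 0 < (T : ℝ) ^ θ := by positivity
      have h2 : (2 * (T : ℝ) + 1) / (p : ℝ) ^ (vv p) ≤ 3 * (T : ℝ) ^ (1 - θ) := by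
        calc (2 * (T : ℝ) + 1) / (p : ℝ) ^ (vv p) ≤ (3 * T) / (T : ℝ) ^ θ := by
              apply div_le_div₀ (by positivity) (by linarith) hTθ hspec.2.le
          _ = 3 * (T : ℝ) ^ (1 - θ) := by
              rw [Real.rpow_sub hT0, Real.rpow_one]; ring
      have h3 : (1 : ℝ) ≤ (T : ℝ) ^ (1 - θ) := Real.one_le_rpow hT1 (by linarith)
      calc _ ≤ (d : ℝ) * ((2 * T + 1) / (p : ℝ) ^ (vv p) + 1) := h1
        _ ≤ (d : ℝ) * (3 * (T : ℝ) ^ (1 - θ) + (T : ℝ) ^ (1 - θ)) := by gcongr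
        _ = _ := by ring
    have hcard : (S1.card : ℝ) ≤ y := by
      have : S1.card ≤ k := by
        calc S1.card ≤ (Finset.Icc 1 k).card := Finset.card_filter_le _ _
          _ = k := by simp
      exact (by exact_mod_cast this : (S1.card : ℝ) ≤ k).trans hky
    calc (((S1.biUnion fun p => (Finset.Icc (-(T : ℤ)) T).filter (fun x => (p : ℤ) ^ (vv p) ∣ P.eval x)).card : ℕ) : ℝ)
        ≤ ((∑ p ∈ S1, ((Finset.Icc (-(T : ℤ)) T).filter (fun x => (p : ℤ) ^ (vv p) ∣ P.eval x)).card : ℕ) : ℝ) := by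
          exact_mod_cast Finset.card_biUnion_le
      _ = ∑ p ∈ S1, (((Finset.Icc (-(T : ℤ)) T).filter (fun x => (p : ℤ) ^ (vv p) ∣ P.eval x)).card : ℝ) := by
          push_cast; rfl
      _ ≤ ∑ p ∈ S1, 4 * d * (T : ℝ) ^ (1 - θ) := Finset.sum_le_sum hb
      _ = S1.card * (4 * d * (T : ℝ) ^ (1 - θ)) := by rw [Finset.sum_const, nsmul_eq_mul]
      _ ≤ y * (4 * d * (T : ℝ) ^ (1 - θ)) := by gcongr
      _ = 4 * d * ((T : ℝ) ^ (θ / 2) * (T : ℝ) ^ (1 - θ)) := by rw [hy]; ring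
      _ = 4 * d * (T : ℝ) ^ (1 - θ / 2) := by
          rw [← Real.rpow_add hT0]; congr 2; ring
  have hc2 : (((S2.biUnion fun p => (Finset.Icc (-(T : ℤ)) T).filter (fun x => (p : ℤ) ^ 2 ∣ P.eval x)).card : ℕ) : ℝ) ≤
      6 * d * (T : ℝ) ^ (1 - θ / 2) + d * (T : ℝ) ^ (1 - δ) := by
    have hb : ∀ p ∈ S2, (((Finset.Icc (-(T : ℤ)) T).filter (fun x => (p : ℤ) ^ 2 ∣ P.eval x)).card : ℝ) ≤
        3 * d * T * ((p : ℝ) ^ 2)⁻¹ + d := by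
      intro p hpS
      rw [hS2, Finset.mem_filter] at hpS
      obtain ⟨_, hp, hpQ⟩ := hpS
      have h1 := ev1_cnt d hd P U V W Q hP hPd hUV hWQ p 2 hp hpQ (by norm_num) T
      have hp0 : (0 : ℝ) < (p : ℝ) ^ 2 := by have := hp.pos; positivity
      calc _ ≤ (d : ℝ) * ((2 * T + 1) / (p : ℝ) ^ 2 + 1) := h1
        _ ≤ (d : ℝ) * ((3 * T) / (p : ℝ) ^ 2 + 1) := by
            gcongr
            linarith
        _ = _ := by rw [div_eq_mul_inv]; ring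
    have hnonneg : ∀ i ∈ Finset.Ioc k n, 0 ≤ 3 * (d : ℝ) * T * ((i : ℝ) ^ 2)⁻¹ + d := by
      intro i _; positivity
    have hsum : ∑ i ∈ Finset.Ioc k n, (3 * (d : ℝ) * T * ((i : ℝ) ^ 2)⁻¹ + d) ≤
        6 * d * (T : ℝ) ^ (1 - θ / 2) + d * (T : ℝ) ^ (1 - δ) := by
      rcases le_or_gt k n with hkn | hkn
      · rw [Finset.sum_add_distrib, ← Finset.mul_sum, Finset.sum_const, nsmul_eq_mul, Nat.card_Ioc]
        have hs : ∑ i ∈ Finset.Ioc k n, ((i : ℝ) ^ 2)⁻¹ ≤ (k : ℝ)⁻¹ - (n : ℝ)⁻¹ :=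
          sum_Ioc_inv_sq_le_sub (by omega) hkn
        have hs2 : ∑ i ∈ Finset.Ioc k n, ((i : ℝ) ^ 2)⁻¹ ≤ 2 / y := by
          have hk0 : (0 : ℝ) < k := by exact_mod_cast hk1
          have h1 : (k : ℝ)⁻¹ ≤ 2 / y := by
            rw [inv_le_iff_one_le_mul₀ hk0, div_mul_eq_mul_div, le_div_iff₀ (by linarith)]
            linarith
          have h2 : (0 : ℝ) ≤ (n : ℝ)⁻¹ := by positivity
          linarith
        have hs3 : 3 * (d : ℝ) * T * ∑ i ∈ Finset.Ioc k n, ((i : ℝ) ^ 2)⁻¹ ≤ 6 * d * (T : ℝ) ^ (1 - θ / 2) := by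
          calc 3 * (d : ℝ) * T * ∑ i ∈ Finset.Ioc k n, ((i : ℝ) ^ 2)⁻¹ ≤ 3 * (d : ℝ) * T * (2 / y) := by gcongr
            _ = 6 * d * (T : ℝ) ^ (1 - θ / 2) := by
                rw [hy, Real.rpow_sub hT0, Real.rpow_one]; ring
        have hs4 : ((n - k : ℕ) : ℝ) * d ≤ d * (T : ℝ) ^ (1 - δ) := by
          have : ((n - k : ℕ) : ℝ) ≤ n := by exact_mod_cast Nat.sub_le n k
          calc ((n - k : ℕ) : ℝ) * d ≤ (T : ℝ) ^ (1 - δ) * d := by gcongr; linarith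
            _ = _ := by ring
        linarith
      · rw [Finset.Ioc_eq_empty (by omega), Finset.sum_empty]
        positivity
    calc (((S2.biUnion fun p => (Finset.Icc (-(T : ℤ)) T).filter (fun x => (p : ℤ) ^ 2 ∣ P.eval x)).card : ℕ) : ℝ)
        ≤ ((∑ p ∈ S2, ((Finset.Icc (-(T : ℤ)) T).filter (fun x => (p : ℤ) ^ 2 ∣ P.eval x)).card : ℕ) : ℝ) := by
          exact_mod_cast Finset.card_biUnion_le
      _ = ∑ p ∈ S2, (((Finset.Icc (-(T : ℤ)) T).filter (fun x => (p : ℤ) ^ 2 ∣ P.eval x)).card : ℝ) := by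
          push_cast; rfl
      _ ≤ ∑ p ∈ S2, (3 * (d : ℝ) * T * ((p : ℝ) ^ 2)⁻¹ + d) := Finset.sum_le_sum hb
      _ ≤ ∑ p ∈ Finset.Ioc k n, (3 * (d : ℝ) * T * ((p : ℝ) ^ 2)⁻¹ + d) := by
          apply Finset.sum_le_sum_of_subset_of_nonneg (Finset.filter_subset _ _)
          intro i hi _
          exact hnonneg i hi
      _ ≤ _ := hsum
  have hm1 : (T : ℝ) ^ (1 - θ / 2) ≤ (T : ℝ) ^ (1 - min (θ / 2) δ) :=
    Real.rpow_le_rpow_of_exponent_le hT1 (by linarith [min_le_left (θ / 2) δ])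
  have hm2 : (T : ℝ) ^ (1 - δ) ≤ (T : ℝ) ^ (1 - min (θ / 2) δ) :=
    Real.rpow_le_rpow_of_exponent_le hT1 (by linarith [min_le_right (θ / 2) δ])
  have hfinal := (Finset.card_le_card hsub).trans (Finset.card_union_le _ _)
  have hfinal' := (Nat.cast_le (α := ℝ)).mpr hfinal
  push_cast at hfinal'
  calc _ ≤ _ := hfinal'
    _ ≤ 4 * d * (T : ℝ) ^ (1 - θ / 2) + (6 * d * (T : ℝ) ^ (1 - θ / 2) + d * (T : ℝ) ^ (1 - δ)) := add_le_add hc1 hc2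
    _ ≤ 4 * d * (T : ℝ) ^ (1 - min (θ / 2) δ) + (6 * d * (T : ℝ) ^ (1 - min (θ / 2) δ) + d * (T : ℝ) ^ (1 - min (θ / 2) δ)) := by
        gcongr
    _ = _ := by ring

end SzFM
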