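import Pool.Agent.SzFM.Defs

/-!
Invariants at places of potentially good reduction.
-/

open Polynomial

namespace SzFM

lemma key_int_le (p : ℕ) [Fact p.Prime] (z : ℤ) : ‖(z : ℂ_[p])‖ ≤ 1 := by
  have h0 : algebraMap ℚ_[p] ℂ_[p] (z : ℚ_[p]) = (z : ℂ_[p]) := map_intCast _ z
  have h1 : ‖algebraMap ℚ_[p] ℂ_[p] (z : ℚ_[p])‖ = ‖(z : ℚ_[p])‖ := PadicComplex.norm_extends' p _
  rw [← h0, h1]
  exact Padic.norm_int_le_one z

lemma key_int_eq (p : ℕ) [Fact p.Prime] (z : ℤ) (hz : ¬ (p : ℤ) ∣ z) : ‖(z : ℂ_[p])‖ = 1 := by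
  have h0 : algebraMap ℚ_[p] ℂ_[p] (z : ℚ_[p]) = (z : ℂ_[p]) := map_intCast _ z
  have h1 : ‖algebraMap ℚ_[p] ℂ_[p] (z : ℚ_[p])‖ = ‖(z : ℚ_[p])‖ := PadicComplex.norm_extends' p _
  rw [← h0, h1]
  refine le_antisymm (Padic.norm_int_le_one z) ?_
  by_contra h
  push Not at h
  exact hz (Padic.norm_intCast_lt_one_iff.1 h)

lemma key_int_lt (p : ℕ) [Fact p.Prime] (z : ℤ) (hz : (p : ℤ) ∣ z) : ‖(z : ℂ_[p])‖ < 1 := by
  have h0 : algebraMap ℚ_[p] ℂ_[p] (z : ℚ_[p]) = (z : ℂ_[p]) := map_intCast _ z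
  have h1 : ‖algebraMap ℚ_[p] ℂ_[p] (z : ℚ_[p])‖ = ‖(z : ℚ_[p])‖ := PadicComplex.norm_extends' p _
  rw [← h0, h1]
  exact Padic.norm_intCast_lt_one_iff.2 hz

lemma key_norm_aeval {K : Type*} [NormedField K] [IsUltrametricDist K]
    (hint : ∀ z : ℤ, ‖(z : K)‖ ≤ 1) {n : ℕ} (I : MvPolynomial (Fin n) ℤ)
    (v : Fin n → K) (hv : ∀ k, ‖v k‖ ≤ 1) : ‖MvPolynomial.aeval v I‖ ≤ 1 := by
  rw [MvPolynomial.aeval_def, MvPolynomial.eval₂_eq']
  refine IsUltrametricDist.norm_sum_le_of_forall_le_of_nonneg zero_le_one fun m _ => ?_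
  rw [norm_mul, norm_prod]
  have h1 : ‖(algebraMap ℤ K) (MvPolynomial.coeff m I)‖ ≤ 1 := by
    simpa using hint (MvPolynomial.coeff m I)
  have h2 : ∏ i, ‖v i ^ m i‖ ≤ 1 := by
    refine Finset.prod_le_one (fun i _ => norm_nonneg _) fun i _ => ?_
    rw [norm_pow]
    exact pow_le_one₀ (norm_nonneg _) (hv i)
  calc _ ≤ (1 : ℝ) * 1 := mul_le_mul h1 h2 (Finset.prod_nonneg fun i _ => norm_nonneg _) zero_le_one
    _ = 1 := one_mul 1

lemma key_homog {K : Type*} [Field K] {n e : ℕ} (I : MvPolynomial (Fin n) ℤ)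
    (hI : I.IsHomogeneous e) (t : K) (v : Fin n → K) :
    MvPolynomial.aeval (fun k => t * v k) I = t ^ e * MvPolynomial.aeval v I := by
  rw [MvPolynomial.aeval_def, MvPolynomial.aeval_def, MvPolynomial.eval₂_eq',
    MvPolynomial.eval₂_eq', Finset.mul_sum]
  refine Finset.sum_congr rfl fun m hm => ?_
  have h1 : ∑ i, m i = e := by
    have := hI (MvPolynomial.mem_support_iff.1 hm)
    rw [← this, Finsupp.weight_apply, Finsupp.sum_fintype _ _ (by simp)]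
    simp
  simp_rw [mul_pow]
  rw [Finset.prod_mul_distrib, Finset.prod_pow_eq_pow_sum, h1]
  ring

lemma key_act {K : Type*} [Field K] (N : ℕ) (b : Fin (N + 1) → K) (l x y z w : K) :
    act N b (l * x) (l * y) (l * z) (l * w) = fun k => l ^ N * act N b x y z w k := by
  funext k
  unfold act
  rw [← coeff_C_mul, Finset.mul_sum]
  congr 1
  refine Finset.sum_congr rfl fun i _ => ?_
  have h1 : (i : ℕ) ≤ N := Nat.lt_succ_iff.1 i.2
  have h2 : C (l ^ N) = C l ^ (i : ℕ) * C l ^ (N - (i : ℕ)) := by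
    rw [← pow_add, Nat.add_sub_cancel' h1, C_pow]
  rw [h2]
  simp only [map_mul]
  have h3 : C l * C x * X + C l * C y = C l * (C x * X + C y) := by ring
  have h4 : C l * C z * X + C l * C w = C l * (C z * X + C w) := by ring
  rw [h3, h4, mul_pow, mul_pow]
  ring

theorem key_gen {K : Type} [NormedField K] [IsUltrametricDist K] [IsAlgClosed K]
    (hint : ∀ z : ℤ, ‖(z : K)‖ ≤ 1) (N e : ℕ) (hN : 2 ≤ N) (I : MvPolynomial (Fin (N + 1)) ℤ)
    (hI : IsInvariant N e I) (b : Fin (N + 1) → ℤ) (D : K) (c x y z w : K)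
    (hle : ∀ k, ‖c * act N (fun i => (b i : K)) x y z w k‖ ≤ 1)
    (hone : ‖c ^ (2 * N - 2) * (x * w - y * z) ^ (N * (N - 1)) * D‖ = 1) :
    ‖((MvPolynomial.eval b I : ℤ) : K)‖ ^ (2 * N - 2) ≤ ‖D‖ ^ e := by
  set δ : K := x * w - y * z with hδ
  have hne : c ^ (2 * N - 2) * δ ^ (N * (N - 1)) * D ≠ 0 := by
    intro h0
    rw [h0, norm_zero] at hone
    exact zero_ne_one hone
  have hc : c ≠ 0 := by
    rintro rfl
    apply hne
    rw [zero_pow (by omega), zero_mul, zero_mul]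
  have hδ0 : δ ≠ 0 := by
    intro h0
    apply hne
    have : N * (N - 1) ≠ 0 := Nat.mul_ne_zero (by omega) (by omega)
    rw [h0, zero_pow this, mul_zero, zero_mul]
  obtain ⟨l, hl⟩ := IsAlgClosed.exists_pow_nat_eq δ (n := 2) (by norm_num)
  have hl0 : l ≠ 0 := by
    rintro rfl
    apply hδ0
    rw [← hl, zero_pow (by norm_num)]
  set b' : Fin (N + 1) → K := fun i => (b i : K) with hb'
  have hact : act N b' x y z w = fun k => l ^ N * act N b' (x / l) (y / l) (z / l) (w / l) k := by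
    rw [← key_act]
    congr 1 <;> field_simp
  have hinv : MvPolynomial.aeval (act N b' (x / l) (y / l) (z / l) (w / l)) I =
      MvPolynomial.aeval b' I := by
    refine hI.2 K b' _ _ _ _ ?_
    have : x / l * (w / l) - y / l * (z / l) = δ / l ^ 2 := by
      rw [hδ]
      field_simp
    rw [this, hl, div_self hδ0]
  have hcast : MvPolynomial.aeval b' I = ((MvPolynomial.eval b I : ℤ) : K) := by
    have h1 := MvPolynomial.eval₂_comp_left (Int.castRingHom K) (RingHom.id ℤ) b I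
    rw [MvPolynomial.aeval_def]
    have h2 : (MvPolynomial.eval b I : ℤ) = MvPolynomial.eval₂ (RingHom.id ℤ) b I := rfl
    rw [h2]
    have h3 : (Int.castRingHom K) (MvPolynomial.eval₂ (RingHom.id ℤ) b I) =
      ((MvPolynomial.eval₂ (RingHom.id ℤ) b I : ℤ) : K) := rfl
    rw [← h3, h1]
    rfl
  have hval : MvPolynomial.aeval (fun k => c * act N b' x y z w k) I =
      (c * l ^ N) ^ e * ((MvPolynomial.eval b I : ℤ) : K) := by
    rw [hact]
    have h1 : (fun k => c * (l ^ N * act N b' (x / l) (y / l) (z / l) (w / l) k)) =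
        fun k => (c * l ^ N) * act N b' (x / l) (y / l) (z / l) (w / l) k := by
      funext k
      ring
    rw [h1, key_homog I hI.1, hinv, hcast]
  have hnorm : ‖(c * l ^ N) ^ e * ((MvPolynomial.eval b I : ℤ) : K)‖ ≤ 1 := by
    rw [← hval]
    exact key_norm_aeval hint I _ hle
  set i0 : ℝ := ‖((MvPolynomial.eval b I : ℤ) : K)‖ with hi0
  have h1 : (‖c‖ * ‖l‖ ^ N) ^ e * i0 ≤ 1 := by
    rw [norm_mul, norm_pow, norm_mul, norm_pow] at hnorm
    exact hnorm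
  have h2 : ‖c‖ ^ (2 * N - 2) * (‖l‖ ^ 2) ^ (N * (N - 1)) * ‖D‖ = 1 := by
    rw [norm_mul, norm_mul, norm_pow, norm_pow] at hone
    rw [← norm_pow l 2, hl]
    exact hone
  set Q : ℝ := (‖c‖ ^ (2 * N - 2) * (‖l‖ ^ 2) ^ (N * (N - 1))) ^ e with hQ
  have hQ0 : 0 < Q := by
    have := norm_pos_iff.2 hc
    have := norm_pos_iff.2 hl0
    positivity
  have h3 : Q * ‖D‖ ^ e = 1 := by
    rw [hQ, ← mul_pow, h2, one_pow]
  have h4 : Q * i0 ^ (2 * N - 2) ≤ 1 := by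
    have h5 : Q * i0 ^ (2 * N - 2) = ((‖c‖ * ‖l‖ ^ N) ^ e * i0) ^ (2 * N - 2) := by
      rw [hQ, mul_pow ((‖c‖ * ‖l‖ ^ N) ^ e) i0]
      congr 1
      rw [mul_pow, mul_pow, mul_pow, ← pow_mul, ← pow_mul, ← pow_mul, ← pow_mul, ← pow_mul,
        ← pow_mul]
      have h6 : (2 * N - 2) * e = e * (2 * N - 2) := mul_comm _ _
      have h7 : 2 * (N * (N - 1) * e) = N * (e * (2 * N - 2)) := by
        have : 2 * N - 2 = 2 * (N - 1) := by omega
        rw [this]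
        ring
      rw [h6, h7]
    rw [h5]
    exact pow_le_one₀ (by positivity) h1
  rw [← h3] at h4
  exact le_of_mul_le_mul_left h4 hQ0

theorem key (N e : ℕ) (hN : 2 ≤ N) (I : MvPolynomial (Fin (N + 1)) ℤ) (hI : IsInvariant N e I)
    (p : ℕ) [Fact p.Prime] (b : Fin (N + 1) → ℤ) (h : PotGood p N b) :
    ‖((MvPolynomial.eval b I : ℤ) : ℂ_[p])‖ ^ (2 * N - 2) ≤
      ‖(((SzBF.form N b).discr : ℤ) : ℂ_[p])‖ ^ e := by
  obtain ⟨c, x, y, z, w, hle, hone⟩ := h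
  exact key_gen (key_int_le p) N e hN I hI b _ c x y z w hle hone

/-- a criterion for bad reduction -/
theorem loc (N e : ℕ) (hN : 2 ≤ N) (I : MvPolynomial (Fin (N + 1)) ℤ) (hI : IsInvariant N e I)
    (p : ℕ) [Fact p.Prime] (b : Fin (N + 1) → ℤ) (x D' J' : ℤ) (d i : ℕ)
    (hD : (SzBF.form N b).discr = x ^ d * D') (hJ : MvPolynomial.eval b I = x ^ i * J')
    (hx : x ≠ 0) (hpx : (p : ℤ) ∣ x) (hpJ : ¬ (p : ℤ) ∣ J') (h : (2 * N - 2) * i < e * d) :
    ¬ PotGood p N b := by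
  intro hgood
  have h1 := key N e hN I hI p b hgood
  rw [hD, hJ] at h1
  push_cast at h1
  rw [norm_mul, norm_mul, key_int_eq p J' hpJ, mul_one, norm_pow, norm_pow] at h1
  set t : ℝ := ‖(x : ℂ_[p])‖ with ht
  have ht1 : t < 1 := key_int_lt p x hpx
  have ht0 : 0 < t := norm_pos_iff.2 (by exact_mod_cast hx)
  have h2 : (t ^ d * ‖(D' : ℂ_[p])‖) ^ e ≤ t ^ (d * e) := by
    rw [mul_pow, ← pow_mul]
    have := pow_le_one₀ (n := e) (norm_nonneg _) (key_int_le p D')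
    calc t ^ (d * e) * ‖(D' : ℂ_[p])‖ ^ e ≤ t ^ (d * e) * 1 :=
          mul_le_mul_of_nonneg_left this (by positivity)
      _ = _ := mul_one _
  rw [← pow_mul] at h1
  have h3 : t ^ (d * e) < t ^ (i * (2 * N - 2)) := by
    refine pow_lt_pow_right_of_lt_one₀ ht0 ht1 ?_
    rw [mul_comm d e, mul_comm i]
    exact h
  linarith

end SzFM
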