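import Mathlib

/-!
The moduli.
-/

open scoped Classical

namespace SzFM

/-- the exponent of the modulus attached to `p^v` -/
noncomputable def ex (d : ℕ) (Q : ℤ) (p v : ℕ) : ℕ :=
  if (p : ℤ) ∣ Q then (v + d - 1) / d else v

/-- the modulus attached to `b` -/
noncomputable def md (d : ℕ) (Q : ℤ) (b : ℕ) : ℝ :=
  ∏ p ∈ b.primeFactors, (p : ℝ) ^ ex d Q p (b.factorization p)

/-- the prime factors not dividing `Q` have exponent at least two -/
def Adm (Q : ℤ) (b : ℕ) : Prop :=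
  b ≠ 0 ∧ ∀ p : ℕ, p.Prime → p ∣ b → ¬ (p : ℤ) ∣ Q → p ^ 2 ∣ b

end SzFM
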