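import Pool.Agent.SzFM.Cls
import Pool.Agent.SzFM.Crt
import Pool.Agent.SzFM.Md

/-!
The number of the integers `x` in an interval with `b | P(x)`.
-/

open Polynomial
open scoped Classical

namespace SzFM

theorem pt_count (d : ℕ) (hd : 1 ≤ d) (P U V : ℤ[X]) (W Q : ℤ) (hP : P.IsPrimitive)
    (hPd : P.natDegree ≤ d) (h : U * P + V * derivative P = C W) (hWQ : W ∣ Q)
    (b : ℕ) (hb : b ≠ 0) (T : ℕ) :
    (((Finset.Icc (-(T : ℤ)) T).filter (fun x => (b : ℤ) ∣ P.eval x)).card : ℝ) ≤
      (d : ℝ) ^ b.primeFactors.card * ((2 * T + 1) / md d Q b + 1) := by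
  rw [md]
  refine crt_count b.primeFactors (fun p hp => Nat.prime_of_mem_primeFactors hp)
    (fun p => ex d Q p (b.factorization p)) d T _ (Finset.filter_subset _ _) ?_
  intro p hp Y hYS hsep
  have hpp : p.Prime := Nat.prime_of_mem_primeFactors hp
  have hpb : p ∣ b := Nat.dvd_of_mem_primeFactors hp
  set v := b.factorization p with hv
  have hv1 : 1 ≤ v := (hpp.dvd_iff_one_le_factorization hb).1 hpb
  have hY : ∀ y ∈ Y, (p : ℤ) ^ v ∣ P.eval y := by
    intro y hy
    have h1 := (Finset.mem_filter.1 (hYS hy)).2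
    have h2 : p ^ v ∣ b := Nat.ordProj_dvd b p
    have h3 : ((p : ℤ) ^ v) ∣ (b : ℤ) := by exact_mod_cast Int.natCast_dvd_natCast.2 h2
    exact h3.trans h1
  by_cases hQ : (p : ℤ) ∣ Q
  · have he : ex d Q p v = (v + d - 1) / d := if_pos hQ
    have he1 : 1 ≤ (v + d - 1) / d := by
      rw [Nat.le_div_iff_mul_le (by omega)]
      omega
    have he2 : (v + d - 1) / d * d ≤ v + d - 1 := Nat.div_mul_le_self _ _
    refine (cls_prim P hP p hpp v ((v + d - 1) / d) he1 ?_ Y hY ?_).trans hPd
    · have h4 : P.natDegree * ((v + d - 1) / d - 1) ≤ d * ((v + d - 1) / d - 1) :=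
        Nat.mul_le_mul_right _ hPd
      have h5 : d * ((v + d - 1) / d - 1) = (v + d - 1) / d * d - d := by
        rw [Nat.mul_sub, mul_one, mul_comm]
      omega
    · intro y hy y' hy' hne
      have := hsep y hy y' hy' hne
      rwa [he] at this
  · have he : ex d Q p v = v := if_neg hQ
    refine (cls_sep P U V W h p hpp (fun hW => hQ (hW.trans hWQ)) v hv1 Y hY ?_).trans hPd
    intro y hy y' hy' hne
    have := hsep y hy y' hy' hne
    rwa [he] at this

end SzFM
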